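import Pool.Agent.Helper58.SF.StG

/-!
# Project SF (MP_a45945_gt), module FAA: the surfaces and their cells
-/

set_option autoImplicit false

namespace Pool.Agent.Helper71.SF

open Set Topology Pool.Agent.Helper13.TR Pool.Agent.Helper58.SF
open Pool.Agent.Helper13.TW (IsArc Spl IsSCC)

/-- **Module FAA.** -/
theorem hFAA (hWNX : StWNX) (hINS : StINS) (hHTF : StHTF) (hOMB : StOMB) (hBEX : StBEX)
    (hMON : StMON) (hFLW : StFLW) (hPSH : StPSH) : StFAA := by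
  intro P _ r R dg x₀ a a' b V0 V' C2 Jp zJ chi O1 hD u hu S hS
  have hG : GB P r R dg := hD.gb
  have hF : Flow P r R := hG.box.toFlow
  have ha := hD.ha
  have haa := hD.haa
  have hb := hD.hb
  have hab' : a' < b := hD.hax.trans hD.hxb
  have hab : a < b := haa.trans hab'
  obtain ⟨F1, -, -, F4, F5, F6, -, F8⟩ := hFLW P r R hF
  obtain ⟨O1', O2', O3', O4', O5'⟩ := hOMB P r R dg hG
  obtain ⟨B1, -⟩ := hBEX P r R dg hG.toSB
  have hRa : Continuous (R a) := F1 a ha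
  obtain ⟨P1, -, P3, -, -, -⟩ := hPSH P P P (⟨R a, hRa⟩ : C(P, P)) (⟨R a, hRa⟩ : C(P, P))
  obtain ⟨M1, -, -, -, -, -⟩ := hMON P
  -- the level function
  set lam : P → ℝ := fun y => b - u * chi y * (b - a') with hlam
  have hlamc : Continuous lam := by
    have := hD.chic
    fun_prop
  have hlam01 : ∀ y, a' ≤ lam y ∧ lam y ≤ b := by
    intro y
    obtain ⟨h0, h1⟩ := hD.chi01 y
    have h2 : 0 ≤ u * chi y := mul_nonneg hu.1 h0
    have h3 : u * chi y ≤ 1 := mul_le_one₀ hu.2 h0 h1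
    have h4 : 0 < b - a' := by linarith
    constructor
    · show a' ≤ b - u * chi y * (b - a')
      nlinarith
    · show b - u * chi y * (b - a') ≤ b
      nlinarith [mul_nonneg h2 h4.le]
  have hSe : S = {y : P | r y = lam (R a y)} := hS
  have hSl : ∀ y ∈ S, r y = lam (R a y) := by
    intro y hy
    rw [hSe] at hy
    exact hy
  have hSr : ∀ y ∈ S, a' ≤ r y ∧ r y ≤ b := by
    intro y hy
    rw [hSl y hy]
    exact hlam01 _
  have hlv : ∀ y : P, a ≤ r y → r (R a y) = a := by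
    intro y hy
    rw [hF.rR a y ha, min_eq_left hy]
  obtain ⟨W1, W2, W3⟩ := hWNX P r R dg hG a lam S ha (hab.trans hb) hlamc
    (fun y => ⟨haa.trans_le (hlam01 y).1, (hlam01 y).2.trans_lt hb⟩) hSe
  have hV0 : IsOpen (R a ⁻¹' V0) := hD.oV0.preimage hRa
  -- cycles over V0 bound
  have hbnd : ∀ z ∈ cin (R a ⁻¹' V0) 1, bd 0 z = 0 → ∃ e : Ch P 2, bd 1 e = z := by
    intro z hz hz0
    obtain ⟨⟨h, -, hh⟩, -⟩ := hHTF P r R dg hG a hRa (R a ⁻¹' V0) z ha hz hz0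
    have h1 : push (⟨R a, hRa⟩ : C(P, P)) 1 z ∈ cin V0 1 := P3 V0 1 z hz
    have h2 : bd 0 (push (⟨R a, hRa⟩ : C(P, P)) 1 z) = 0 := by
      rw [P1 0 z, hz0, map_zero]
    obtain ⟨e, he⟩ := hD.bV0 _ h1 h2
    refine ⟨e - h, ?_⟩
    rw [map_sub, hh, he]
    abel
  have hWN := W3 (R a ⁻¹' V0) hV0 (fun z hz hz0 => hbnd z (M1 _ _ 1 inter_subset_right hz) hz0)
  obtain ⟨p, q, D₁, D₂, d₁, d₂, hspl, hd₁, hd₂, hb₁, hb₂, hzJ⟩ := hD.spl
  have hJS : Jp ⊆ S := by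
    intro y hy
    rw [hSe]
    show r y = b - u * chi (R a y) * (b - a')
    rw [hD.chi0 (R a y) (hlv y (by rw [hD.Jb y hy]; exact hab.le)) (hD.Ja y hy).2, hD.Jb y hy]
    ring
  have hJV : Jp ⊆ R a ⁻¹' V0 := fun y hy => hD.subV (hD.Ja y hy).1
  obtain ⟨hscc, hins⟩ := hINS P r R dg S (R a ⁻¹' V0) W2 hWN Jp p q D₁ D₂ d₁ d₂ hspl hJS hJV
    hd₁ hd₂ hb₁ hb₂
  rw [← hzJ] at hins
  -- the cycle
  have hDJ₁ : D₁ ⊆ Jp := by rw [← hspl.2.2.2]; exact subset_union_left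
  have hDJ₂ : D₂ ⊆ Jp := by rw [← hspl.2.2.2]; exact subset_union_right
  have hzc : zJ ∈ cin Jp 1 := by
    rw [hzJ]
    exact Submodule.sub_mem _ (M1 _ _ 1 hDJ₁ hd₁) (M1 _ _ 1 hDJ₂ hd₂)
  have hz0 : bd 0 zJ = 0 := by
    rw [hzJ, map_sub, hb₁, hb₂, sub_self]
  have hzV : zJ ∈ cin (R a ⁻¹' V0) 1 := M1 _ _ 1 hJV hzc
  obtain ⟨e, he⟩ := hbnd zJ hzV hz0
  -- points of a line above the level a
  have hline : ∀ x v : P, a ≤ r x → a ≤ r v → v ∈ Ln r R x → R a x = R a v := by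
    intro x v hx hv hm
    have h1 := (F6 x v).1 hm
    have h2 : a ≤ min (r x) (r v) := le_min hx hv
    rw [← hF.RR a _ x ha h2, ← hF.RR a _ v ha h2, h1]
  -- (A)
  have hA : ∀ x ∈ S, R a x ∈ C2 → x ∉ Jp ∧ Wd (Up r R) (Dn r R) dg zJ x ≠ 0 := by
    intro x hx hxC
    have hax : a ≤ r x := haa.le.trans (hSr x hx).1
    have hrx : 0 < r x := ha.trans_le hax
    refine ⟨fun h => (hD.Ja x h).2 hxC, ?_⟩
    obtain ⟨y, hyU, hyb⟩ := B1 x b (hSr x hx).2 hb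
    have hyx : R (r x) y = x := hyU.2
    have hRy : R a y = R a x := by
      rw [← hF.RR a (r x) y ha hax, hyx]
    have h1 : Wd (Up r R) (Dn r R) dg zJ y ≠ 0 := hD.win y hyb (by rw [hRy]; exact hxC)
    have hcin : zJ ∈ cin (Ln r R x)ᶜ 1 := by
      refine M1 _ _ 1 ?_ hzc
      intro v hv hvx
      have h2 := hline x v hax (by rw [hD.Jb v hv]; exact hab.le) hvx
      exact (hD.Ja v hv).2 (by rw [← h2]; exact hxC)
    have h3 : Wd (Up r R) (Dn r R) dg zJ y = Wd (Up r R) (Dn r R) dg zJ x := by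
      have h4 := O3' e {z | ∃ σ : ℝ, r x ≤ σ ∧ z = R σ y} (by
        rintro z ⟨σ, hσ, rfl⟩
        rw [he]
        refine M1 _ _ 1 (compl_subset_compl.2 (F5 x (R σ y) ⟨?_, ?_⟩)) hcin
        · rw [hF.rR σ y (hrx.trans_le hσ)]
          exact le_min hσ hyU.1
        · rw [hF.RR (r x) σ y hrx hσ]
          exact hyx) y (R (r x) y) (F4 (r x) y hrx)
      rw [he, hyx] at h4
      exact h4
    rw [← h3]
    exact h1
  -- (B)
  have hB : ∀ x ∈ S, Wd (Up r R) (Dn r R) dg zJ x ≠ 0 → R a x ∈ V0 := by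
    intro x hx hne
    by_contra hV
    apply hne
    have hax : a ≤ r x := haa.le.trans (hSr x hx).1
    have hrc : r (R a x) = a := hlv x hax
    have hup : ∀ (v : P) (σ : ℝ), a ≤ r v → a ≤ σ → R a v = R a x → R σ v ∈ Up r R (R a x) := by
      intro v σ hv hσ hvx
      refine ⟨?_, ?_⟩
      · rw [hrc, hF.rR σ v (ha.trans_le hσ)]
        exact le_min hσ hv
      · rw [hrc, hF.RR a σ v ha hσ, hvx]
    have hno : ∀ v ∈ Jp, ∀ σ : ℝ, a ≤ σ → R σ v ∉ Ln r R (R a x) := by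
      intro v hv σ hσ hm
      have hav : a ≤ r v := by rw [hD.Jb v hv]; exact hab.le
      have h1 := hline (R a x) (R σ v) hrc.ge (by
        rw [hF.rR σ v (ha.trans_le hσ)]
        exact le_min hσ hav) hm
      rw [hF.RR a σ v ha hσ, hF.RR a a x ha le_rfl] at h1
      exact hV (by rw [h1]; exact hJV hv)
    have hcin : zJ ∈ cin (Ln r R (R a x))ᶜ 1 := by
      refine M1 _ _ 1 ?_ hzc
      intro v hv hvx
      have h2 := hno v hv b hab.le
      rw [hF.Rid b v (hD.Jb v hv).le] at h2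
      exact h2 hvx
    have h3 : Wd (Up r R) (Dn r R) dg zJ x = Wd (Up r R) (Dn r R) dg zJ (R a x) := by
      have h4 := O3' e {z | ∃ σ : ℝ, a ≤ σ ∧ z = R σ x} (by
        rintro z ⟨σ, hσ, rfl⟩
        rw [he]
        exact M1 _ _ 1 (compl_subset_compl.2 (F5 _ _ (hup x σ hax hσ rfl))) hcin) x (R a x)
        (F4 a x ha)
      rw [he] at h4
      exact h4
    have h5 := (hHTF P r R dg hG a hRa Jp zJ ha hzc hz0).2 (R a x) ⟨e, he⟩ hno
    rw [h3, ← h5]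
    refine hD.zV' _ (P3 V' 1 zJ (M1 _ _ 1 (fun y hy => (hD.Ja y hy).1) hzc)) ?_ _ hrc hV
    rw [P1 0 zJ, hz0, map_zero]
  refine ⟨W1, W2, hWN, ⟨⟨hscc, ?_, ?_⟩, ?_⟩, hJS, ?_⟩
  · intro y hy
    exact hJV hy
  · -- nonempty interior
    have hax₀ : a ≤ r x₀ := (haa.trans hD.hax).le
    have hrc : r (R a x₀) = a := hlv x₀ hax₀
    have hchi : chi (R a x₀) = 1 := hD.chi1 _ hD.xO1 hrc
    have hC : R a x₀ ∈ C2 := by
      by_contra h
      have := hD.chi0 _ hrc h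
      rw [hchi] at this
      exact one_ne_zero this
    obtain ⟨x, hxU, hxl⟩ := B1 (R a x₀) (lam (R a x₀))
      (by rw [hrc]; exact haa.le.trans (hlam01 _).1) ((hlam01 _).2.trans_lt hb)
    have hRx : R a x = R a x₀ := by
      have := hxU.2
      rwa [hrc] at this
    have hxS : x ∈ S := by
      rw [hSe]
      show r x = lam (R a x)
      rw [hRx, hxl]
    have h1 := hA x hxS (by rw [hRx]; exact hC)
    exact ⟨⟨x, hxS⟩, (hins ⟨x, hxS⟩).2 h1⟩
  · intro x hx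
    exact hB x x.2 ((hins x).1 hx).2
  · ext y
    constructor
    · rintro ⟨x, hx, rfl⟩
      refine ⟨hS ▸ x.2, ?_⟩
      rcases hx with hx | hx
      · exact Or.inl hx
      · exact Or.inr ((hins x).1 hx).2
    · rintro ⟨hyS, hy⟩
      have hyS' : y ∈ S := by rw [hS]; exact hyS
      refine ⟨⟨y, hyS'⟩, ?_, rfl⟩
      by_cases hyJ : y ∈ Jp
      · exact Or.inl hyJ
      · exact Or.inr ((hins ⟨y, hyS'⟩).2 ⟨hyJ, hy.resolve_left hyJ⟩)

end Pool.Agent.Helper71.SF
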