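import Pool.Agent.Helper58.SF.StN

/-!
# Project SF (MP_a45945_gt), module NHF: monotone maps of cells onto the disc are limits of homeomorphisms
-/

set_option autoImplicit false

namespace Pool.Agent.Helper71.SF

open Set Topology Pool.Agent.Helper13.TR Pool.Agent.Helper58.SF
open Pool.Agent.Helper13.TW (IsArc Spl IsSCC GT CSy MP Val LR MCell StMD2 StMD3)

private lemma mcell_unit : MCell (Metric.closedBall (0 : ℂ) 1) (Metric.sphere 0 1) :=
  ⟨Homeomorph.refl ℂ, by simp, by simp⟩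

private lemma mcell_pre {E J : Set ℂ} (h : MCell E J) : IsPreconnected E := by
  obtain ⟨w, hw, -⟩ := h
  rw [← hw]
  exact (convex_closedBall (0 : ℂ) 1).isPreconnected.image _ w.continuous.continuousOn

private lemma near {A : Set ℂ} (hA : IsCompact A) (hne : A.Nonempty) {v : ℂ} {e : ℝ}
    (h : Metric.infDist v A ≤ e) : ∃ u ∈ A, dist v u ≤ e := by
  obtain ⟨u, hu, hd⟩ := hA.exists_infDist_eq_dist hne v
  exact ⟨u, hu, by rw [← hd]; exact h⟩

/-- **Module NHF.** -/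
theorem hNHF (hIDN : StIDN) (hEXT : StEXT) (hGLU : StGLU) (hPCN : StPCN) (hCSS : StCSS)
    (hMD2 : StMD2) (hMD3 : StMD3) (hTWO : StTWO) : StNHF := by
  intro S _ _ _ ω V hW J f hJ hc hf hfim hfib hinj hJim ε hε
  have hMono : Mono (cl ω J) f :=
    ⟨hc, hf, hfim, fun C' hC' hpc => hPCN S (cl ω J) f hc hf hfib C' (by rw [hfim]; exact hC') hpc⟩
  set e : ℝ := ε / 4 with he_def
  have he : 0 < e := by positivity
  have hJD : J ⊆ cl ω J := subset_union_left
  have hfJ : ContinuousOn f J := hf.mono hJD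
  obtain ⟨M', -, -, hM', H⟩ := hIDN S ω V hW J f hJ hMono e (Metric.closedBall 0 1)
    (Metric.sphere 0 1) (hMD3 e he _ _ mcell_unit) mcell_unit Subset.rfl
  obtain ⟨η, hη, Hη⟩ := H e he
  obtain ⟨L, hL, hLp⟩ := Hη J f hJ Subset.rfl hfJ hinj hJim (fun y _ => by rw [dist_self]; exact hη)
    (by
      rintro m' hm' y ⟨hyD, hym⟩
      rcases hyD with hyJ | hyI
      · exfalso
        apply (hM' hm').2
        rw [← hJim]
        have h1 : f y = m' := hym
        rw [← h1]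
        exact ⟨y, hyJ, rfl⟩
      · exact hyI)
  have hCS := hCSS S ω V hW
  have hext : ∀ N ∈ L, ∃ g : S → ℂ, ContinuousOn g N.E ∧ InjOn g N.E ∧ g '' N.E = N.E' ∧
      ∀ y ∈ N.J, g y = N.h y := by
    intro N hN
    obtain ⟨v1, v2, v3, v4, v5⟩ := hL.val N hN
    exact hEXT S _ hCS N.E N.J v1 N.E' N.J' v2 N.h v3 v4 v5
  classical
  set F : MP S ℂ → S → ℂ := fun N => if h : N ∈ L then Classical.choose (hext N h) else N.h with hF
  have hFp : ∀ N ∈ L, ContinuousOn (F N) N.E ∧ InjOn (F N) N.E ∧ F N '' N.E = N.E' ∧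
      ∀ y ∈ N.J, F N y = N.h y := by
    intro N hN
    have h1 : F N = Classical.choose (hext N hN) := by
      simp only [hF]
      rw [dif_pos hN]
    rw [h1]
    exact Classical.choose_spec (hext N hN)
  obtain ⟨h, hh1, hh2, hh3, hh4, hh5⟩ := hGLU S _ hCS ⟨cl ω J, J, Metric.closedBall 0 1, Metric.sphere 0 1, f⟩
    ⟨⟨hJ, rfl⟩, mcell_unit, hfJ, hinj, hJim⟩ L hL F hFp
  refine ⟨h, hh1, hh2, hh3, hh4, fun y hy => ?_⟩
  -- the piece of `y`
  have hyU : y ∈ ⋃ N ∈ L, N.E := by rw [hL.un]; exact hy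
  obtain ⟨N, hN, hyN⟩ := mem_iUnion₂.mp hyU
  obtain ⟨hNd, hNc, -⟩ := hLp N hN
  obtain ⟨v1, v2, v3, v4, v5⟩ := hL.val N hN
  obtain ⟨hNcel, hNE⟩ := v1
  obtain ⟨hNcpt, hNJE, -⟩ := hMD2.1 _ _ v2
  have hhy : h y ∈ N.E' := by
    rw [hh5 N hN y hyN, ← (hFp N hN).2.2.1]
    exact ⟨y, hyN, rfl⟩
  have hne : N.E'.Nonempty := ⟨h y, hhy⟩
  have hdN : ∀ u ∈ N.E', ∀ v ∈ N.E', dist u v < e := fun u hu v hv =>
    (Metric.dist_le_diam_of_mem hNcpt.isBounded hu hv).trans_lt hNd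
  by_cases hcase : Metric.infDist (f y) N.E' ≤ e
  · obtain ⟨u, hu, hd⟩ := near hNcpt hne hcase
    have h1 := hdN (h y) hhy u hu
    have h2 := dist_triangle (h y) u (f y)
    rw [dist_comm u (f y)] at h2
    linarith
  · push Not at hcase
    set Ω : Set ℂ := {v | v ∈ Metric.closedBall (0 : ℂ) 1 ∧ e < Metric.infDist v N.E'} with hΩ
    have hfyB : f y ∈ Metric.closedBall (0 : ℂ) 1 := by
      rw [← hfim]
      exact ⟨y, hy, rfl⟩
    have hfyΩ : f y ∈ Ω := ⟨hfyB, hcase⟩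
    set C : Set ℂ := connectedComponentIn Ω (f y) with hC
    have hCΩ : C ⊆ Ω := connectedComponentIn_subset _ _
    have hfyC : f y ∈ C := mem_connectedComponentIn hfyΩ
    have hCpre : IsPreconnected C := isPreconnected_connectedComponentIn
    have hA : IsPreconnected (cl ω J ∩ f ⁻¹' C) :=
      hMono.2.2.2 C (fun v hv => (hCΩ hv).1) hCpre
    have hAJ : ∀ v ∈ cl ω J ∩ f ⁻¹' C, v ∉ N.J := by
      rintro v ⟨-, hvC⟩ hvJ
      have h1 : e < Metric.infDist (f v) N.E' := (hCΩ hvC).2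
      have h2 : N.h v ∈ N.E' := hNJE (by rw [← v5]; exact ⟨v, hvJ, rfl⟩)
      have h3 := Metric.infDist_le_dist_of_mem (x := f v) h2
      have h4 := hNc v hvJ
      rw [dist_comm] at h4
      linarith
    have hyA : y ∈ cl ω J ∩ f ⁻¹' C := ⟨hy, hfyC⟩
    obtain ⟨⟨hIo, -⟩, ⟨hOo, -⟩, -, -, -⟩ := hTWO S ω V hW N.J hNcel.1
    have hyI : y ∈ Ins ω N.J := by
      rw [hNE] at hyN
      rcases hyN with h1 | h1
      · exact absurd h1 (hAJ y hyA)
      · exact h1
    have hAI : cl ω J ∩ f ⁻¹' C ⊆ Ins ω N.J := by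
      refine hA.subset_left_of_subset_union hIo hOo ?_ ?_ ⟨y, hyA, hyI⟩
      · rw [Set.disjoint_left]
        intro a ha hb
        exact hb (Or.inr ha)
      · intro v hv
        by_cases h1 : v ∈ Ins ω N.J
        · exact Or.inl h1
        · right
          rintro (h2 | h2)
          · exact hAJ v hv h2
          · exact h1 h2
    have hfyU : f y ∈ ⋃ N ∈ L, N.E' := by rw [hL.un']; exact hfyB
    obtain ⟨N₂, hN₂, hyN₂⟩ := mem_iUnion₂.mp hfyU
    obtain ⟨hd₂, -, m₂, hm₂, hmk⟩ := hLp N₂ hN₂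
    have hN₂cpt : IsCompact N₂.E' := (hMD2.1 _ _ (hL.val N₂ hN₂).2.1).1
    have hNN : N ≠ N₂ := by
      rintro rfl
      rw [Metric.infDist_zero_of_mem hyN₂] at hcase
      linarith
    have hN₂B : N₂.E' ⊆ Metric.closedBall (0 : ℂ) 1 := by
      have h1 : (⋃ N ∈ L, N.E') = Metric.closedBall (0 : ℂ) 1 := hL.un'
      rw [← h1]
      exact subset_iUnion₂_of_subset N₂ hN₂ Subset.rfl
    by_cases hc2 : ∃ v ∈ N₂.E', Metric.infDist v N.E' ≤ e
    · obtain ⟨v, hv, hvd⟩ := hc2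
      obtain ⟨u, hu, hd⟩ := near hNcpt hne hvd
      have h1 := hdN (h y) hhy u hu
      have h2 : dist (f y) v < e :=
        (Metric.dist_le_diam_of_mem hN₂cpt.isBounded hyN₂ hv).trans_lt hd₂
      have h3 := dist_triangle4 (h y) u v (f y)
      rw [dist_comm u v, dist_comm v (f y)] at h3
      linarith
    · exfalso
      push Not at hc2
      have h1 : N₂.E' ⊆ C :=
        (mcell_pre (hL.val N₂ hN₂).2.1).subset_connectedComponentIn hyN₂
          fun v hv => ⟨hN₂B hv, hc2 v hv⟩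
      have h2 : m₂ ∈ f '' cl ω J := by rw [hfim]; exact hN₂B hm₂
      obtain ⟨z, hz, hzm⟩ := h2
      have h3 := hmk ⟨hz, hzm⟩
      have h4 : z ∈ Ins ω N.J := hAI ⟨hz, by
        show f z ∈ C
        rw [hzm]
        exact h1 hm₂⟩
      have h5 : z ∈ N.E := by rw [hNE]; exact Or.inr h4
      exact h3.2 (hL.dis N hN N₂ hN₂ hNN ⟨h5, h3.1⟩).2

end Pool.Agent.Helper71.SF
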