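import Pool.Agent.Helper58.SF.StA

/-!
# Project SF (MP_a45945_gt), module OP3: local orientations in degree three, open subsets
-/

set_option autoImplicit false

namespace Pool.Agent.Helper71.SF

open Set Topology Pool.Agent.Helper13.TR Pool.Agent.Helper58.SF

/-- the inclusion of a subset -/
private def inc {X : Type} [TopologicalSpace X] (U : Set X) : C(↥U, X) :=
  ⟨Subtype.val, continuous_subtype_val⟩

/-- the orientation: the integer `m` such that the class of `e` at `y` is `m` times the class of `c` -/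
private noncomputable def om {X : Type} [TopologicalSpace X] (U : Set X) (c : Ch X 3) (y : ↥U)
    (e : Ch ↥U 3) : ℤ := by
  classical
  exact if h : ∃ m : ℤ, push (inc U) 3 e - m • c ∈ Nul {(y : X)} 3 then Classical.choose h else 0

private lemma om_eq {X : Type} [TopologicalSpace X] (U : Set X) (c : Ch X 3) (y : ↥U)
    (e : Ch ↥U 3) (hg : Gen (y : X) c) (m : ℤ)
    (hm : push (inc U) 3 e - m • c ∈ Nul {(y : X)} 3) : om U c y e = m := by
  classical
  have hex : ∃ m : ℤ, push (inc U) 3 e - m • c ∈ Nul {(y : X)} 3 := ⟨m, hm⟩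
  have hdef : om U c y e = Classical.choose hex := by
    unfold om
    rw [dif_pos hex]
  have hch := Classical.choose_spec hex
  rw [← hdef] at hch
  have h1 := Submodule.sub_mem _ hm hch
  have h2 : (push (inc U) 3 e - m • c) - (push (inc U) 3 e - om U c y e • c)
      = (om U c y e - m) • c := by
    rw [sub_smul]
    abel
  rw [h2] at h1
  have h3 := hg.2 _ h1
  linarith

private lemma pre_sing {X : Type} [TopologicalSpace X] (U : Set X) (y : ↥U) :
    ((inc U) ⁻¹' {(y : X)} : Set ↥U) = {y} := by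
  ext z
  constructor
  · intro hz
    exact Subtype.ext hz
  · intro hz
    have : z = y := hz
    subst this
    rfl

private lemma pre_compl {X : Type} [TopologicalSpace X] (U : Set X) (y : ↥U) :
    ((inc U) ⁻¹' {(y : X)}ᶜ : Set ↥U) = {y}ᶜ := by
  rw [preimage_compl, pre_sing]

/-- relative cycles go to relative cycles -/
private lemma push_cyc (hPSH : StPSH) {X : Type} [TopologicalSpace X] (U : Set X) (y : ↥U) (n : ℕ)
    (e : Ch ↥U (n + 1)) (he : e ∈ Cyc {y} (n + 1)) :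
    push (inc U) (n + 1) e ∈ Cyc {(y : X)} (n + 1) := by
  have h1 : bd n e ∈ cin {y}ᶜ n := he
  obtain ⟨p1, -, p3, -, -, -⟩ := hPSH ↥U X X (inc U) (ContinuousMap.id X)
  show bd n (push (inc U) (n + 1) e) ∈ cin {(y : X)}ᶜ n
  rw [p1]
  apply p3
  rw [pre_compl]
  exact h1

/-- relative boundaries go to relative boundaries -/
private lemma push_nul (hPSH : StPSH) {X : Type} [TopologicalSpace X] (U : Set X) (y : ↥U) (n : ℕ)
    (e : Ch ↥U n) (he : e ∈ Nul {y} n) :
    push (inc U) n e ∈ Nul {(y : X)} n := by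
  obtain ⟨p1, -, p3, -, -, -⟩ := hPSH ↥U X X (inc U) (ContinuousMap.id X)
  obtain ⟨r, hr, q, ⟨b, hb⟩, hrq⟩ := Submodule.mem_sup.1 he
  rw [← hrq, ← hb, map_add, ← p1]
  refine Submodule.add_mem_sup ?_ ⟨_, rfl⟩
  apply p3
  rw [pre_compl]
  exact hr

/-- excision at a point -/
private lemma exi (hEXI : StEXI) {X : Type} [TopologicalSpace X] [T1Space X] (U : Set X)
    (hU : IsOpen U) (y : ↥U) (n : ℕ) (e : Ch ↥U n)
    (he : push (inc U) n e ∈ Nul {(y : X)} n) : e ∈ Nul {y} n := by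
  have h := hEXI X U {(y : X)} hU isClosed_singleton (singleton_subset_iff.2 y.2) n e he
  have h2 : (Subtype.val ⁻¹' {(y : X)} : Set ↥U) = {y} := pre_sing U y
  rw [h2] at h
  exact h

/-- a relative cycle near a compact set `F` of `U` can be cut down to `U` -/
private lemma cut (hSM : StSM) (hSDA : StSDA) (hPSH : StPSH) (hMON : StMON) {X : Type}
    [TopologicalSpace X] [T2Space X] (U : Set X) (hU : IsOpen U) (F : Set ↥U) (hF : IsCompact F)
    (c : Ch X 3) (hc : bd 2 c ∈ cin ((inc U) '' F)ᶜ 2) :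
    ∃ e' ∈ Cyc F 3, ∃ c₂ ∈ cin ((inc U) '' F)ᶜ 3, ∃ f : Ch X 4,
      c = push (inc U) 3 e' + c₂ + bd 3 f := by
  obtain ⟨mon1, -, mon3, mon4, mon5, -⟩ := hMON X
  obtain ⟨p1, -, p3, p4, p5, p6⟩ := hPSH ↥U X X (inc U) (ContinuousMap.id X)
  have hinj : Function.Injective (inc U) := Subtype.val_injective
  have hemb : IsEmbedding (inc U) := IsEmbedding.subtypeVal
  have hiF : IsCompact ((inc U) '' F) := hF.image (inc U).continuous
  have hiU : (inc U) '' F ⊆ U := by
    rintro _ ⟨y, _, rfl⟩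
    exact y.2
  have hun : U ∪ ((inc U) '' F)ᶜ = univ := by
    ext z
    simp only [mem_union, mem_compl_iff, mem_univ, iff_true]
    by_cases h : z ∈ (inc U) '' F
    · exact Or.inl (hiU h)
    · exact Or.inr h
  obtain ⟨c₁, hc₁, c₂, hc₂, f, -, hcf⟩ :=
    hSM X U ((inc U) '' F)ᶜ hU hiF.isClosed.isOpen_compl 3 c (by rw [hun, mon3]; trivial) (by
      show bd 2 c ∈ cin U 2 ⊔ cin ((inc U) '' F)ᶜ 2
      exact Submodule.mem_sup_right hc)
  have himg : (inc U) '' univ = U := by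
    rw [image_univ]
    exact Subtype.range_val
  obtain ⟨e', -, he'⟩ := p5 hemb univ 3 c₁ (by rw [himg]; exact hc₁)
  have hb1 : bd 2 c₁ = bd 2 c - bd 2 c₂ := by
    have h2 := (hSDA X).1 2 f
    rw [hcf, map_add, map_add, h2]
    abel
  refine ⟨e', ?_, c₂, hc₂, f, by rw [he']; exact hcf⟩
  show bd 2 e' ∈ cin Fᶜ 2
  have hpre : (inc U) ⁻¹' (((inc U) '' F)ᶜ) = Fᶜ := by
    rw [preimage_compl, preimage_image_eq _ hinj]
  rw [← hpre]
  apply p6 hinj
  rw [← p1, he', hb1]
  exact Submodule.sub_mem _ hc (mon4 _ 2 c₂ hc₂)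

private theorem part1 (hSM : StSM) (hSDA : StSDA) (hPSH : StPSH) (hMON : StMON) (hEXI : StEXI)
    (hCON : StCON) (X : Type) [TopologicalSpace X] [T3Space X] (hHM : HM X) (x : X) :
    ∃ N : Set X, IsOpen N ∧ x ∈ N ∧ ∀ U : Set X, IsOpen U → U ⊆ N →
      ∃ dg : ↥U → Ch ↥U 3 → ℤ, WS3 ↥U dg := by
  obtain ⟨N, hNo, hxN, c, hc, hgenN⟩ := hHM.ori x
  refine ⟨N, hNo, hxN, fun U hUo hUN => ⟨om U c, ?_⟩⟩
  have hgen : ∀ y : ↥U, Gen (y : X) c := fun y => hgenN y (hUN y.2)
  obtain ⟨mon1, -, mon3, -, mon5, -⟩ := hMON X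
  -- the class exists
  have hex : ∀ (y : ↥U) (e : Ch ↥U 3), e ∈ Cyc {y} 3 →
      push (inc U) 3 e - om U c y e • c ∈ Nul {(y : X)} 3 := by
    intro y e he
    obtain ⟨m, hm⟩ := (hgen y).1 _ (push_cyc hPSH U y 2 e he)
    rw [om_eq U c y e (hgen y) m hm]
    exact hm
  refine ⟨?_, ?_, ?_, ?_, ?_⟩
  · -- add
    intro y e he e' he'
    apply om_eq U c y _ (hgen y)
    have h1 := Submodule.add_mem _ (hex y e he) (hex y e' he')
    have h2 : (push (inc U) 3 e - om U c y e • c) + (push (inc U) 3 e' - om U c y e' • c)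
        = push (inc U) 3 (e + e') - (om U c y e + om U c y e') • c := by
      rw [map_add, add_smul]
      abel
    rw [h2] at h1
    exact h1
  · -- nul
    intro y e he
    apply om_eq U c y _ (hgen y)
    rw [zero_smul, sub_zero]
    exact push_nul hPSH U y 3 e he
  · -- ker
    intro y e he h0
    have h1 := hex y e he
    rw [h0, zero_smul, sub_zero] at h1
    exact exi hEXI U hUo y 3 e h1
  · -- loc
    intro e O _ hbe a b hab
    obtain ⟨γ, hγ⟩ := hab
    have hloc : IsLocallyConstant fun t : unitInterval => om U c (γ t) e := by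
      rw [IsLocallyConstant.iff_exists_open]
      intro t
      have hcyc : e ∈ Cyc {γ t} 3 := by
        show bd 2 e ∈ cin {γ t}ᶜ 2
        exact (hMON ↥U).1 _ _ 2 (compl_subset_compl.2 (singleton_subset_iff.2 (hγ t))) hbe
      have h1 := hex (γ t) e hcyc
      obtain ⟨O', hO', htO', hn⟩ := hCON.1 X X (ContinuousMap.id X) {((γ t : ↥U) : X)} 3 _ h1
      refine ⟨(fun s : unitInterval => ((γ s : ↥U) : X)) ⁻¹' O', ?_, ?_, ?_⟩
      · exact hO'.preimage (continuous_subtype_val.comp γ.continuous)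
      · exact htO' rfl
      · intro s hs
        apply om_eq U c (γ s) e (hgen _)
        have h2 : Nul (ContinuousMap.id X ⁻¹' O') 3 ≤ Nul {((γ s : ↥U) : X)} 3 :=
          (mon5 _ _ 3 (singleton_subset_iff.2 hs)).2
        exact h2 hn
    have h := hloc.apply_eq_of_preconnectedSpace 0 1
    simpa using h
  · -- cls
    intro F hF
    have hbc : bd 2 c ∈ cin ((inc U) '' F)ᶜ 2 := by
      have h1 : bd 2 c ∈ cin Nᶜ 2 := hc
      refine mon1 _ _ 2 (compl_subset_compl.2 ?_) h1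
      rintro _ ⟨y, _, rfl⟩
      exact hUN y.2
    obtain ⟨e', he', c₂, hc₂, f, hcf⟩ := cut hSM hSDA hPSH hMON U hUo F hF c hbc
    refine ⟨e', he', fun z hz => ?_⟩
    apply om_eq U c z _ (hgen z)
    rw [one_smul]
    have h3 : push (inc U) 3 e' - c = -c₂ + bd 3 (-f) := by
      rw [map_neg]
      nth_rewrite 1 [hcf]
      abel
    rw [h3]
    refine Submodule.add_mem_sup (Submodule.neg_mem _ (mon1 _ _ 3 ?_ hc₂)) ⟨_, rfl⟩
    exact compl_subset_compl.2 (singleton_subset_iff.2 ⟨z, hz, rfl⟩)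

private theorem part2 (hSM : StSM) (hSDA : StSDA) (hPSH : StPSH) (hMON : StMON) (hEXI : StEXI)
    (P : Type) [TopologicalSpace P] [T2Space P] (dg : P → Ch P 3 → ℤ) (U : Set P)
    (hW : WS3 P dg) (hU : IsOpen U) :
    WS3 ↥U fun x e => dg x (push ⟨Subtype.val, continuous_subtype_val⟩ 3 e) := by
  obtain ⟨p1, -, p3, -, p5, p6⟩ := hPSH ↥U P P (inc U) (ContinuousMap.id P)
  obtain ⟨mon1, -, mon3, mon4, mon5, -⟩ := hMON P
  have hinj : Function.Injective (inc U) := Subtype.val_injective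
  have hbb : ∀ (n : ℕ) (c : Ch P (n + 2)), bd n (bd (n + 1) c) = 0 := (hSDA P).1
  refine ⟨?_, ?_, ?_, ?_, ?_⟩
  · intro x e he e' he'
    show dg x (push (inc U) 3 (e + e')) = dg x (push (inc U) 3 e) + dg x (push (inc U) 3 e')
    rw [map_add]
    exact hW.add x _ (push_cyc hPSH U x 2 e he) _ (push_cyc hPSH U x 2 e' he')
  · intro x e he
    exact hW.nul x _ (push_nul hPSH U x 3 e he)
  · intro x e he h0
    exact exi hEXI U hU x 3 e (hW.ker x _ (push_cyc hPSH U x 2 e he) h0)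
  · intro e O hO hbe x y hxy
    have hO' : IsOpen ((inc U) '' O) := hU.isOpenMap_subtype_val O hO
    refine hW.loc (push (inc U) 3 e) ((inc U) '' O) hO' ?_ (x : P) (y : P) ?_
    · rw [p1]
      apply p3
      rw [preimage_compl, preimage_image_eq _ hinj]
      exact hbe
    · obtain ⟨γ, hγ⟩ := hxy
      refine ⟨γ.map continuous_subtype_val, fun t => ?_⟩
      exact ⟨γ t, hγ t, rfl⟩
  · intro F hF
    obtain ⟨c, hc, h1⟩ := hW.cls ((inc U) '' F) (hF.image (inc U).continuous)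
    have hbc : bd 2 c ∈ cin ((inc U) '' F)ᶜ 2 := hc
    obtain ⟨e', he', c₂, hc₂, f, hcf⟩ := cut hSM hSDA hPSH hMON U hU F hF c hbc
    refine ⟨e', he', fun z hz => ?_⟩
    show dg z (push (inc U) 3 e') = 1
    have hzF : {(z : P)} ⊆ (inc U) '' F := singleton_subset_iff.2 ⟨z, hz, rfl⟩
    have hc₂z : c₂ ∈ cin {(z : P)}ᶜ 3 := mon1 _ _ 3 (compl_subset_compl.2 hzF) hc₂
    have hr : c₂ + bd 3 f ∈ Nul {(z : P)} 3 := Submodule.add_mem_sup hc₂z ⟨f, rfl⟩
    have hrC : c₂ + bd 3 f ∈ Cyc {(z : P)} 3 := by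
      show bd 2 (c₂ + bd 3 f) ∈ cin ({(z : P)}ᶜ : Set P) 2
      rw [map_add, hbb, add_zero]
      exact mon4 _ 2 c₂ hc₂z
    have hez : e' ∈ Cyc {z} 3 := by
      show bd 2 e' ∈ cin {z}ᶜ 2
      exact (hMON ↥U).1 _ _ 2 (compl_subset_compl.2 (singleton_subset_iff.2 hz)) he'
    have h3 := hW.add (z : P) _ (push_cyc hPSH U z 2 e' hez) (c₂ + bd 3 f) hrC
    rw [hW.nul (z : P) _ hr, ← add_assoc, ← hcf, h1 z ⟨z, hz, rfl⟩, add_zero] at h3
    exact h3.symm

/-- **Module OP3.** -/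
theorem hOP3 (hSM : StSM) (hSDA : StSDA) (hPSH : StPSH) (hMON : StMON) (hEXI : StEXI)
    (hCON : StCON) : StOP3 :=
  ⟨fun X _ _ hHM x => part1 hSM hSDA hPSH hMON hEXI hCON X hHM x,
    fun P _ _ dg U hW hU => part2 hSM hSDA hPSH hMON hEXI P dg U hW hU⟩

end Pool.Agent.Helper71.SF
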