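import Pool.Agent.Helper71.SF.Main

/-!
# Factorizations of symmetric and alternating groups, part 5: blocks and stars

`n = m j`. A partition of the points into `m` blocks of size `j` meets every star (all `j`-subsets through a point) in
exactly one set. So a factorization of the pointwise stabiliser of `j` points extends to the group.
-/

set_option autoImplicit false

namespace Pool.Agent.Helper71.SF

open Pool.Agent.Helper10.FG Equiv Nat
open scoped Pointwise

variable {α : Type*} [Fintype α] [DecidableEq α]

theorem exists_perm {j : ℕ} (f g : Fin j ↪ α) : ∃ σ : Perm α, ∀ s, σ (f s) = g s := by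
  classical
  let e1 : {x // x ∈ Set.range f} ≃ {x // x ∈ Set.range g} :=
    (Equiv.ofInjective f f.injective).symm.trans (Equiv.ofInjective g g.injective)
  refine ⟨e1.extendSubtype, fun s => ?_⟩
  rw [Equiv.extendSubtype_apply_of_mem _ _ (Set.mem_range_self s)]
  simp only [e1, Equiv.trans_apply]
  have : (Equiv.ofInjective f f.injective).symm ⟨f s, Set.mem_range_self s⟩ = s := by
    rw [Equiv.symm_apply_eq]
    rfl
  rw [this]
  rfl

theorem transF {e : Bool} {j : ℕ} (h2 : e = true → j + 2 ≤ Fintype.card α) (f g : Fin j ↪ α) :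
    ∃ σ : Gr e α, ∀ s, (σ : Perm α) (f s) = g s := by
  obtain ⟨σ, hσ⟩ := exists_perm f g
  by_cases hs : e = true → Perm.sign σ = 1
  · exact ⟨⟨σ, mem_Gr.2 hs⟩, hσ⟩
  · push Not at hs
    obtain ⟨he, hs⟩ := hs
    have hcard := h2 he
    have : 1 < (Finset.univ \ Finset.univ.map f : Finset α).card := by
      rw [Finset.card_sdiff_of_subset (Finset.subset_univ _), Finset.card_map, Finset.card_univ,
        Finset.card_univ, Fintype.card_fin]
      omega
    obtain ⟨x, hx, y, hy, hxy⟩ := Finset.one_lt_card.1 this
    simp only [Finset.mem_sdiff, Finset.mem_univ, Finset.mem_map, true_and, not_exists] at hx hy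
    refine ⟨⟨σ * swap x y, mem_Gr.2 fun _ => ?_⟩, fun s => ?_⟩
    · rw [Perm.sign_mul, Perm.sign_swap hxy]
      rcases Int.units_eq_one_or (Perm.sign σ) with h | h
      · exact absurd h hs
      · rw [h]; rfl
    · rw [Perm.mul_apply, swap_apply_of_ne_of_ne (hx s) (hy s), hσ]

/-- blocks on the left, a star on the right -/
theorem stepF (e : Bool) {m j : ℕ} (h2 : e = true → j + 1 + 2 ≤ Fintype.card α) (f0 : Fin (j + 1) ↪ α)
    (hm : Fintype.card α = m * (j + 1)) {x y : ℕ}
    (hr : Realised (Gr e {z // ∀ s, z ≠ f0 s}) x y)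
    (hcard : (m * x) * ((j + 1) * (Fintype.card α - 1).descFactorial j * y) = Nat.card (Gr e α)) :
    Realised (Gr e α) (m * x) ((j + 1) * (Fintype.card α - 1).descFactorial j * y) := by
  choose T hT using fun f : Fin (j + 1) ↪ α => transF (e := e) h2 f0 f
  obtain ⟨E⟩ : Nonempty (α ≃ Fin m × Fin (j + 1)) := by
    apply Fintype.card_eq.1
    rw [hm, Fintype.card_prod, Fintype.card_fin, Fintype.card_fin]
  let blk : Fin m → (Fin (j + 1) ↪ α) := fun i =>
    ⟨fun s => E.symm (i, s), fun s t h => by
      have := E.symm.injective h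
      simpa using this⟩
  let a : α := f0 0
  let emb : Fin (j + 1) × (Fin j ↪ {z : α // z ≠ a}) → (Fin (j + 1) ↪ α) := fun p =>
    ⟨Fin.insertNth (α := fun _ => α) p.1 a (fun s => (p.2 s : α)), by
      intro s t h
      rcases Fin.eq_self_or_eq_succAbove p.1 s with rfl | ⟨s', rfl⟩ <;>
        rcases Fin.eq_self_or_eq_succAbove p.1 t with ht | ⟨t', rfl⟩
      · rw [ht]
      · rw [Fin.insertNth_apply_same, Fin.insertNth_apply_succAbove] at h
        exact absurd h.symm (p.2 t').2
      · subst ht
        rw [Fin.insertNth_apply_same, Fin.insertNth_apply_succAbove] at h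
        exact absurd h (p.2 s').2
      · rw [Fin.insertNth_apply_succAbove, Fin.insertNth_apply_succAbove] at h
        rw [p.2.injective (Subtype.ext h)]⟩
  refine realised_of_cover (ext e (fun z => ∀ s, z ≠ f0 s)) (Set.range fun i => T (blk i))
    (Set.range fun p => (T (emb p))⁻¹) ?_ ?_ ?_ hr hcard
  · rw [← Set.image_univ]
    refine (Set.ncard_image_le (Set.toFinite _)).trans ?_
    rw [Set.ncard_univ, Nat.card_eq_fintype_card, Fintype.card_fin]
  · rw [← Set.image_univ]
    refine (Set.ncard_image_le (Set.toFinite _)).trans ?_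
    rw [Set.ncard_univ, Nat.card_eq_fintype_card, Fintype.card_prod, Fintype.card_fin,
      Fintype.card_embedding_eq, Fintype.card_subtype_compl, Fintype.card_subtype_eq, Fintype.card_fin]
  · intro g
    set i : Fin m := (E ((g : Perm α) a)).1 with hi
    set s : Fin (j + 1) := (E ((g : Perm α) a)).2 with hs
    have h1 : blk i s = (g : Perm α) a := by
      change E.symm (i, s) = _
      rw [hi, hs, Prod.mk.eta, Equiv.symm_apply_apply]
    -- the embedding `g⁻¹ ∘ blk i`
    let f : Fin (j + 1) ↪ α := (blk i).trans ((g : Perm α).symm.toEmbedding)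
    have hf : ∀ t, (g : Perm α) (f t) = blk i t := fun t => (g : Perm α).apply_symm_apply _
    have hfs : f s = a := by
      apply (g : Perm α).injective
      rw [hf, h1]
    let p : Fin (j + 1) × (Fin j ↪ {z : α // z ≠ a}) :=
      (s, ⟨fun t => ⟨f (s.succAbove t), fun h => by
        rw [← hfs] at h
        exact Fin.succAbove_ne s t (f.injective h)⟩, fun t u h => by
        have := f.injective (Subtype.ext_iff.1 h)
        exact Fin.succAbove_right_injective this⟩)
    have hp : emb p = f := by
      apply DFunLike.coe_injective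
      change Fin.insertNth (α := fun _ => α) s a (fun t => f (s.succAbove t)) = f
      rw [← hfs]
      exact Fin.insertNth_self_removeNth s f
    obtain ⟨h, hh⟩ := exists_ext (e := e) (fun z => ∀ s, z ≠ f0 s)
        ((T (blk i))⁻¹ * g * (T f)) (by
      intro w hw
      push Not at hw
      obtain ⟨t, rfl⟩ := hw
      rw [Subgroup.coe_mul, Perm.mul_apply, Subgroup.coe_mul, Perm.mul_apply, Subgroup.coe_inv,
        Perm.inv_eq_iff_eq, hT, hf, hT])
    refine ⟨T (blk i), ⟨i, rfl⟩, h, (T f)⁻¹, ⟨p, ?_⟩, ?_⟩
    · change (T (emb p))⁻¹ = (T f)⁻¹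
      rw [hp]
    · rw [hh]; group

end Pool.Agent.Helper71.SF
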