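import Pool.Agent.Helper10.FG.Basic

/-!
# Factorizations of symmetric and alternating groups, part 1: the coverings
-/

set_option autoImplicit false

namespace Pool.Agent.Helper71.SF

open Pool.Agent.Helper10.FG Equiv
open scoped Pointwise

/-- If `G = X φ(H) Y` then a factorization of `H` extends to `G`. -/
theorem realised_of_cover {G H : Type*} [Group G] [Finite G] [Group H] (φ : H →* G) (X Y : Set G)
    {u v x y : ℕ} (hX : X.ncard ≤ u) (hY : Y.ncard ≤ v)
    (hcov : ∀ g : G, ∃ s ∈ X, ∃ h : H, ∃ t ∈ Y, g = s * φ h * t)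
    (hr : Realised H x y) (hcard : (u * x) * (v * y) = Nat.card G) : Realised G (u * x) (v * y) := by
  obtain ⟨A, B, hA, hB, hAB⟩ := hr
  have hpos : 0 < Nat.card G := Nat.card_pos
  have hx : 0 < x := Nat.pos_of_ne_zero (by rintro rfl; simp at hcard; omega)
  have hy : 0 < y := Nat.pos_of_ne_zero (by rintro rfl; simp at hcard; omega)
  have hAf : A.Finite := Set.finite_of_ncard_pos (by omega)
  have hBf : B.Finite := Set.finite_of_ncard_pos (by omega)
  refine realised_of_le (X * (φ '' A)) ((φ '' B) * Y) _ _ hcard ?_ ?_ ?_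
  · exact (ncard_mul_le _ _).trans (Nat.mul_le_mul hX (hA ▸ Set.ncard_image_le hAf))
  · rw [mul_comm v y]
    exact (ncard_mul_le _ _).trans (Nat.mul_le_mul (hB ▸ Set.ncard_image_le hBf) hY)
  · apply Set.eq_univ_of_forall
    intro g
    obtain ⟨s, hs, h, t, ht, rfl⟩ := hcov g
    have hm : h ∈ A * B := by rw [hAB]; exact Set.mem_univ _
    obtain ⟨c, hc, d, hd, rfl⟩ := Set.mem_mul.mp hm
    refine Set.mem_mul.mpr ⟨s * φ c, Set.mul_mem_mul hs ⟨c, hc, rfl⟩, φ d * t,
      Set.mul_mem_mul ⟨d, hd, rfl⟩ ht, ?_⟩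
    rw [map_mul]; group

/-- `Gr true α` is the alternating group, `Gr false α` the symmetric group (as a subgroup of
`Perm α`) -/
def Gr (e : Bool) (α : Type*) [Fintype α] [DecidableEq α] : Subgroup (Perm α) :=
  if e = true then alternatingGroup α else ⊤

section

variable {α : Type*} [Fintype α] [DecidableEq α] {e : Bool}

theorem mem_Gr {g : Perm α} : g ∈ Gr e α ↔ (e = true → Perm.sign g = 1) := by
  unfold Gr
  split_ifs with h
  · simp [h, Perm.mem_alternatingGroup]
  · simp [h]

/-- extension by the identity -/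
def ext (e : Bool) (p : α → Prop) [DecidablePred p] : Gr e {x // p x} →* Gr e α where
  toFun g := ⟨Perm.ofSubtype (g : Perm {x // p x}), by
    rw [mem_Gr]
    intro h
    rw [Perm.sign_ofSubtype]
    exact mem_Gr.1 g.2 h⟩
  map_one' := by ext; simp
  map_mul' g h := by ext; simp

theorem exists_ext (p : α → Prop) [DecidablePred p] (g : Gr e α)
    (hg : ∀ x, ¬ p x → (g : Perm α) x = x) : ∃ h, ext e p h = g := by
  have h1 : ∀ x, p ((g : Perm α) x) ↔ p x := by
    intro x
    by_cases hx : p x
    · refine ⟨fun _ => hx, fun _ => ?_⟩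
      by_contra hn
      have := hg _ hn
      have := (g : Perm α).injective this
      rw [this] at hn
      exact hn hx
    · rw [hg x hx]
  have h2 : ∀ x, (g : Perm α) x ≠ x → p x := fun x hx => by
    by_contra hn
    exact hx (hg x hn)
  refine ⟨⟨Perm.subtypePerm (g : Perm α) h1, ?_⟩, ?_⟩
  · rw [mem_Gr]
    intro h
    rw [Perm.sign_subtypePerm _ h1 h2]
    exact mem_Gr.1 g.2 h
  · apply Subtype.ext
    exact Perm.ofSubtype_subtypePerm h1 h2

/-- a prescribed value -/
theorem trans1 (h3 : e = true → 3 ≤ Fintype.card α) (a c : α) : ∃ g : Gr e α, (g : Perm α) a = c := by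
  by_cases hs : e = true → Perm.sign (swap a c) = 1
  · exact ⟨⟨swap a c, mem_Gr.2 hs⟩, swap_apply_left a c⟩
  · push Not at hs
    obtain ⟨he, hs⟩ := hs
    have hcard := h3 he
    have : 1 < (Finset.univ.erase a : Finset α).card := by
      rw [Finset.card_erase_of_mem (Finset.mem_univ _), Finset.card_univ]; omega
    obtain ⟨x, hx, y, hy, hxy⟩ := Finset.one_lt_card.1 this
    rw [Finset.mem_erase] at hx hy
    refine ⟨⟨swap a c * swap x y, mem_Gr.2 fun _ => ?_⟩, ?_⟩
    · rw [Perm.sign_mul, Perm.sign_swap hxy]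
      rcases Int.units_eq_one_or (Perm.sign (swap a c)) with h | h
      · exact absurd h hs
      · rw [h]; rfl
    · rw [Perm.mul_apply, swap_apply_of_ne_of_ne hx.1.symm hy.1.symm, swap_apply_left]

/-- two prescribed values -/
theorem trans2 (h4 : e = true → 4 ≤ Fintype.card α) {a b c d : α} (hab : a ≠ b) (hcd : c ≠ d) :
    ∃ g : Gr e α, (g : Perm α) a = c ∧ (g : Perm α) b = d := by
  obtain ⟨g, hga, hgb⟩ : ∃ g : Perm α, g a = c ∧ g b = d := by
    refine ⟨swap (swap a c b) d * swap a c, ?_, ?_⟩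
    · rw [Perm.mul_apply, swap_apply_left]
      apply swap_apply_of_ne_of_ne _ hcd
      intro h
      have h2 : swap a c a = swap a c b := by rw [swap_apply_left]; exact h
      exact hab ((swap a c).injective h2)
    · rw [Perm.mul_apply, swap_apply_left]
  by_cases hs : e = true → Perm.sign g = 1
  · exact ⟨⟨g, mem_Gr.2 hs⟩, hga, hgb⟩
  · push Not at hs
    obtain ⟨he, hs⟩ := hs
    have hcard := h4 he
    have : 1 < ((Finset.univ.erase a).erase b : Finset α).card := by
      rw [Finset.card_erase_of_mem (Finset.mem_erase.2 ⟨hab.symm, Finset.mem_univ _⟩),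
        Finset.card_erase_of_mem (Finset.mem_univ _), Finset.card_univ]; omega
    obtain ⟨x, hx, y, hy, hxy⟩ := Finset.one_lt_card.1 this
    rw [Finset.mem_erase, Finset.mem_erase] at hx hy
    refine ⟨⟨g * swap x y, mem_Gr.2 fun _ => ?_⟩, ?_, ?_⟩
    · rw [Perm.sign_mul, Perm.sign_swap hxy]
      rcases Int.units_eq_one_or (Perm.sign g) with h | h
      · exact absurd h hs
      · rw [h]; rfl
    · rw [Perm.mul_apply, swap_apply_of_ne_of_ne hx.2.1.symm hy.2.1.symm, hga]
    · rw [Perm.mul_apply, swap_apply_of_ne_of_ne hx.1.symm hy.1.symm, hgb]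

end

/-- one point -/
theorem step1 {α : Type*} [Fintype α] [DecidableEq α] (e : Bool) (h3 : e = true → 3 ≤ Fintype.card α)
    (a : α) {x y : ℕ} (hr : Realised (Gr e {z // z ≠ a}) x y)
    (hcard : Fintype.card α * x * y = Nat.card (Gr e α)) :
    Realised (Gr e α) (Fintype.card α * x) y := by
  choose T hT using fun c => trans1 (e := e) h3 a c
  have := realised_of_cover (ext e (fun z => z ≠ a)) (Set.range T) {1} (u := Fintype.card α) (v := 1)
    (x := x) (y := y) ?_ ?_ ?_ hr ?_
  · rwa [one_mul] at this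
  · rw [← Set.image_univ]
    refine (Set.ncard_image_le (Set.toFinite _)).trans ?_
    rw [Set.ncard_univ, Nat.card_eq_fintype_card]
  · exact (Set.ncard_singleton _).le
  · intro g
    obtain ⟨h, hh⟩ := exists_ext (e := e) (fun z => z ≠ a) ((T ((g : Perm α) a))⁻¹ * g) (by
      intro z hz
      rw [not_not] at hz
      subst hz
      rw [Subgroup.coe_mul, Perm.mul_apply, Subgroup.coe_inv, Perm.inv_eq_iff_eq, hT])
    exact ⟨T ((g : Perm α) a), ⟨_, rfl⟩, h, 1, rfl, by rw [hh]; group⟩
  · rw [one_mul, hcard]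

end Pool.Agent.Helper71.SF
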