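import Pool.Agent.Helper71.SF.Final

/-!
# Factorizations of symmetric and alternating groups, part 10: extensions
-/

set_option autoImplicit false

namespace Pool.Agent.Helper71.SF

open Pool.Agent.Helper10.FG
open scoped Pointwise

/-- all factorizations of the order are realised in `G` -/
def AllRealised (G : Type) [Group G] : Prop := ∀ a b : ℕ, a * b = Nat.card G → Realised G a b

theorem allRealised_ext {G : Type} [Group G] [Finite G] (N : Subgroup G) [N.Normal] (h1 : AllRealised N)
    (h2 : AllRealised (G ⧸ N)) : AllRealised G := by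
  intro a b hab
  have hc : Nat.card N * Nat.card (G ⧸ N) = Nat.card G := by
    rw [mul_comm]; exact (Subgroup.card_eq_card_quotient_mul_card_subgroup N).symm
  have hN : 0 < Nat.card N := Nat.card_pos
  have hQ : 0 < Nat.card (G ⧸ N) := Nat.card_pos
  obtain ⟨b1, hb1⟩ := Nat.gcd_dvd_right a (Nat.card N)
  have ha : a ∣ a.gcd (Nat.card N) * Nat.card (G ⧸ N) := by
    rw [← Nat.gcd_mul_right]
    exact Nat.dvd_gcd (Dvd.intro _ rfl) (Dvd.intro b (by rw [hab, hc]))
  obtain ⟨a2, ha2⟩ := Nat.gcd_dvd_left a (Nat.card N)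
  set a1 := a.gcd (Nat.card N) with ha1
  have ha1pos : 0 < a1 := Nat.gcd_pos_of_pos_right _ hN
  obtain ⟨b2, hb2⟩ : a2 ∣ Nat.card (G ⧸ N) := by
    rw [ha2] at ha
    exact Nat.dvd_of_mul_dvd_mul_left ha1pos ha
  have hr1 : Realised N a1 b1 := h1 a1 b1 hb1.symm
  obtain ⟨A2, B2, hA2, hB2, hAB2⟩ := h2 a2 b2 hb2.symm
  have hb : b = b2 * b1 := by
    have h3 : a * b = a * (b2 * b1) := by
      rw [hab, ← hc, hb1, hb2, ha2]; ring
    have ha0 : 0 < a := by rw [ha2]; exact Nat.mul_pos ha1pos (Nat.pos_of_ne_zero (by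
      rintro rfl
      rw [zero_mul] at hb2
      omega))
    exact Nat.eq_of_mul_eq_mul_left ha0 h3
  have ha' : a = a2 * a1 := by rw [ha2]; ring
  rw [ha', hb]
  refine realised_of_cover N.subtype ((fun q : G ⧸ N => q.out) '' A2) ((fun q : G ⧸ N => q.out) '' B2)
    ?_ ?_ ?_ hr1 ?_
  · rw [← hA2]
    exact Set.ncard_image_le (Set.toFinite _)
  · rw [← hB2]
    exact Set.ncard_image_le (Set.toFinite _)
  · intro g
    have hg : (g : G ⧸ N) ∈ A2 * B2 := by rw [hAB2]; exact Set.mem_univ _
    obtain ⟨x, hx, y, hy, hxy⟩ := Set.mem_mul.mp hg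
    have hmem : x.out⁻¹ * g * y.out⁻¹ ∈ N := by
      rw [← QuotientGroup.eq_one_iff, QuotientGroup.mk_mul, QuotientGroup.mk_mul, QuotientGroup.mk_inv,
        QuotientGroup.mk_inv, QuotientGroup.out_eq', QuotientGroup.out_eq', ← hxy]
      group
    refine ⟨x.out, ⟨x, hx, rfl⟩, ⟨_, hmem⟩, y.out, ⟨y, hy, rfl⟩, ?_⟩
    simp only [Subgroup.coe_subtype]
    group
  · rw [← ha', ← hb, hab]

theorem realised_one_left {G : Type*} [Group G] [Finite G] {b : ℕ} (hb : 1 * b = Nat.card G) :
    Realised G 1 b := by
  refine ⟨{1}, Set.univ, Set.ncard_singleton _, ?_, ?_⟩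
  · rw [Set.ncard_univ, ← hb, one_mul]
  · rw [Set.singleton_mul, Set.image_univ]
    exact (Equiv.mulLeft (1 : G)).surjective.range_eq

/-- The smallest class of groups that contains the groups of order one, the groups of prime order and the
alternating groups of degree at most `11`, and is closed under extensions. -/
inductive Cls : (G : Type) → [Group G] → Prop
  | prime (G : Type) [Group G] (h : (Nat.card G).Prime ∨ Nat.card G = 1) : Cls G
  | alt (G : Type) [Group G] (n : ℕ) (h : n ≤ 11) (f : alternatingGroup (Fin n) ≃* G) : Cls G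
  | ext (G : Type) [Group G] (N : Subgroup G) [N.Normal] (h1 : Cls N) (h2 : Cls (G ⧸ N)) : Cls G

theorem Cls.allRealised {G : Type} [Group G] (h : Cls G) : Finite G → AllRealised G := by
  induction h with
  | prime G h =>
    intro hf a b hab
    rcases h with h | h
    · rw [← hab] at h
      rcases (Nat.prime_mul_iff.1 h) with ⟨-, h1⟩ | ⟨-, h1⟩
      · subst h1
        exact (realised_one_left (by rw [mul_comm]; exact hab)).symm
      · subst h1
        exact realised_one_left hab
    · exact realised_trivial h hab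
  | alt G n h f =>
    intro hf a b hab
    have h1 : a * b = Nat.card (Gr true (Fin n)) := by
      rw [hab, card_true, Nat.card_congr f.toEquiv]
    exact realised_equiv f ((gr_true n).1 (realised_any true n a b h1 (Or.inl h)))
  | ext G N h1 h2 ih1 ih2 =>
    intro hf
    exact allRealised_ext N (ih1 inferInstance) (ih2 inferInstance)

end Pool.Agent.Helper71.SF
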