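import Pool.Agent.Helper71.SF.Small

/-!
# Factorizations of symmetric and alternating groups, part 9: final form
-/

set_option autoImplicit false

namespace Pool.Agent.Helper71.SF

open Pool.Agent.Helper10.FG Equiv Nat

/-- relabelling the points -/
def grEquiv (e : Bool) {α β : Type} [Fintype α] [DecidableEq α] [Fintype β] [DecidableEq β] (f : α ≃ β) :
    Gr e α ≃* Gr e β where
  toFun g := ⟨f.permCongr (g : Perm α), by
    rw [mem_Gr]
    intro h
    rw [Perm.sign_permCongr]
    exact mem_Gr.1 g.2 h⟩
  invFun g := ⟨f.symm.permCongr (g : Perm β), by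
    rw [mem_Gr]
    intro h
    rw [Perm.sign_permCongr]
    exact mem_Gr.1 g.2 h⟩
  left_inv g := by
    apply Subtype.ext
    ext x
    simp
  right_inv g := by
    apply Subtype.ext
    ext x
    simp
  map_mul' g h := by
    apply Subtype.ext
    ext x
    simp

theorem P_of_realised {e : Bool} {n x y : ℕ} (hxy : cc e * (x * y) = n !)
    (h : Realised (Gr e (Fin n)) x y) : P e n x := by
  intro b hb α _ _ hα
  obtain ⟨f⟩ : Nonempty (Fin n ≃ α) := Fintype.card_eq.1 (by rw [Fintype.card_fin, hα])
  have hcx : 0 < cc e * x := Nat.pos_of_ne_zero (by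
    rintro h0
    rw [← mul_assoc, h0, zero_mul] at hxy
    exact (Nat.factorial_pos n).ne hxy)
  have hby : b = y := by
    apply Nat.eq_of_mul_eq_mul_left hcx
    rw [mul_assoc, hb, mul_assoc, hxy]
  rw [hby]
  exact realised_equiv (grEquiv e f) h

theorem gr_false (n : ℕ) {a b : ℕ} : Realised (Gr false (Fin n)) a b ↔ Realised (Perm (Fin n)) a b := by
  have h : Gr false (Fin n) = ⊤ := by simp [Gr]
  constructor
  · intro hr
    exact realised_equiv ((MulEquiv.subgroupCongr h).trans Subgroup.topEquiv) hr
  · intro hr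
    exact realised_equiv ((MulEquiv.subgroupCongr h).trans Subgroup.topEquiv).symm hr

theorem gr_true (n : ℕ) {a b : ℕ} :
    Realised (Gr true (Fin n)) a b ↔ Realised (alternatingGroup (Fin n)) a b := by
  have h : Gr true (Fin n) = alternatingGroup (Fin n) := by simp [Gr]
  constructor
  · intro hr
    exact realised_equiv (MulEquiv.subgroupCongr h) hr
  · intro hr
    exact realised_equiv (MulEquiv.subgroupCongr h).symm hr

theorem card_false (n : ℕ) : Nat.card (Gr false (Fin n)) = Nat.card (Perm (Fin n)) := by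
  have h : Gr false (Fin n) = ⊤ := by simp [Gr]
  exact Nat.card_congr ((MulEquiv.subgroupCongr h).trans Subgroup.topEquiv).toEquiv

theorem card_true (n : ℕ) : Nat.card (Gr true (Fin n)) = Nat.card (alternatingGroup (Fin n)) := by
  have h : Gr true (Fin n) = alternatingGroup (Fin n) := by simp [Gr]
  exact Nat.card_congr (MulEquiv.subgroupCongr h).toEquiv

theorem good_of_le {c a n : ℕ} (hn : n ≤ 11) (h : c * a ∣ n !) : Good c a := by
  have h11 : c * a ∣ 11 ! := h.trans (Nat.factorial_dvd_factorial hn)
  have ha11 : a ∣ 11 ! := (Dvd.intro_left c rfl).trans h11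
  refine ⟨fun hd => ?_, fun hd => ?_, fun p hp h5 hd => ?_⟩
  · exact absurd (hd.trans h11) (by decide)
  · exact absurd (hd.trans ha11) (by decide)
  · have h1 := hd.trans ha11
    have h2 : p ≤ 11 := (hp.dvd_factorial).1 ((dvd_pow_self p (by norm_num)).trans h1)
    interval_cases p <;> first | exact absurd h1 (by decide) | exact absurd hp (by norm_num)

/-- all groups of small order, all pairs -/
theorem realised_any (e : Bool) (n a b : ℕ) (hab : a * b = Nat.card (Gr e (Fin n)))
    (h : n ≤ 11 ∨ 64 * a ≤ n ^ 3 ∨ 64 * b ≤ n ^ 3 ∨ Good (cc e) a ∨ Good (cc e) b) :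
    Realised (Gr e (Fin n)) a b := by
  by_cases h2 : e = true → 2 ≤ n
  · have hcard := card_Gr e (Fin n) (by rw [Fintype.card_fin]; exact h2)
    rw [Fintype.card_fin, ← hab] at hcard
    have hcard' : cc e * (b * a) = n ! := by rw [mul_comm b a, hcard]
    have hfin : Fintype.card (Fin n) = n := Fintype.card_fin n
    rcases h with h | h | h | h | h
    · exact P_good (good_of_le h (Dvd.intro b (by rw [mul_assoc]; exact hcard))) b hcard (Fin n) hfin
    · exact P_small e n a h b hcard (Fin n) hfin
    · exact (P_small e n b h a hcard' (Fin n) hfin).symm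
    · exact P_good h b hcard (Fin n) hfin
    · exact (P_good h a hcard' (Fin n) hfin).symm
  · push Not at h2
    have hs : Subsingleton (Fin n) := by
      rw [← Fintype.card_le_one_iff_subsingleton, Fintype.card_fin]; omega
    have h1 : Nat.card (Gr e (Fin n)) = 1 := Nat.card_unique
    exact realised_trivial h1 hab

/-- blocks -/
theorem realised_block (e : Bool) (m j x y b : ℕ) (hm : 0 < m) (hj : 0 < j) (he : e = true → 2 ≤ (m - 1) * j)
    (hxy : x * y = Nat.card (Gr e (Fin ((m - 1) * j)))) (hr : Realised (Gr e (Fin ((m - 1) * j))) x y)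
    (hb : m * x * b = Nat.card (Gr e (Fin (m * j)))) : Realised (Gr e (Fin (m * j))) (m * x) b := by
  obtain ⟨j0, rfl⟩ : ∃ j0, j = j0 + 1 := ⟨j - 1, by omega⟩
  have h1 := card_Gr e (Fin ((m - 1) * (j0 + 1))) (by rw [Fintype.card_fin]; exact he)
  rw [Fintype.card_fin, ← hxy] at h1
  have h2 := card_Gr e (Fin (m * (j0 + 1))) (by
    rw [Fintype.card_fin]
    intro h
    exact (he h).trans (Nat.mul_le_mul_right _ (Nat.sub_le m 1)))
  rw [Fintype.card_fin, ← hb] at h2
  exact P_F hm (P_of_realised h1 hr) (Dvd.intro y (by rw [mul_assoc]; exact h1)) b h2 _ (Fintype.card_fin _)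

end Pool.Agent.Helper71.SF
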