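import Mathlib

/-!
# Factorizations of symmetric and alternating groups, part 3: divisibility
-/

set_option autoImplicit false

namespace Pool.Agent.Helper71.SF

open Nat

theorem dvd_of_mul {p s k a b : ℕ} (hp : p.Prime) (ha : ¬ p ^ (s + 1) ∣ a) (h : p ^ (s + k) ∣ a * b) :
    p ^ k ∣ b := by
  have ha0 : a ≠ 0 := by rintro rfl; exact ha (dvd_zero _)
  rcases Nat.eq_zero_or_pos b with rfl | hb
  · exact dvd_zero _
  rw [hp.pow_dvd_iff_le_factorization ha0, not_le] at ha
  rw [hp.pow_dvd_iff_le_factorization (Nat.mul_ne_zero ha0 hb.ne'),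
    Nat.factorization_mul ha0 hb.ne', Finsupp.add_apply] at h
  rw [hp.pow_dvd_iff_le_factorization hb.ne']
  omega

/-- the multiple `c` of the order of the group is `n!` -/
theorem coprime_c {p c : ℕ} (hp : p.Prime) (h3 : 3 ≤ p) (hc : c = 1 ∨ c = 2) (k : ℕ) :
    Nat.Coprime (p ^ k) c := by
  apply Nat.Coprime.pow_left
  rcases hc with rfl | rfl
  · exact Nat.coprime_one_right _
  · rw [Nat.coprime_primes hp Nat.prime_two]
    omega

theorem sq_dvd_factorial {p m : ℕ} (hp : p.Prime) (h : 2 * p ≤ m) : p ^ 2 ∣ m ! := by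
  have h1 : (2 * p) ! ∣ m ! := Nat.factorial_dvd_factorial h
  have h2 : p ∣ (2 * p - 1)! := (hp.dvd_factorial).2 (by have := hp.two_le; omega)
  have h3 : (2 * p)! = 2 * p * (2 * p - 1)! := by
    rw [Nat.mul_factorial_pred (by have := hp.two_le; omega)]
  refine dvd_trans ?_ h1
  rw [h3, pow_two]
  exact mul_dvd_mul (Dvd.intro_left 2 rfl) h2

variable {n a b c : ℕ}

theorem prime_case {p : ℕ} (hp : p.Prime) (h3 : 3 ≤ p) (hc : c = 1 ∨ c = 2) (h : c * (a * b) = n !)
    (hpn : p ≤ n) : p ∣ a ∨ p ∣ b := by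
  have h1 : p ∣ c * (a * b) := by rw [h]; exact (hp.dvd_factorial).2 hpn
  rcases (hp.dvd_mul).1 h1 with h2 | h2
  · exfalso
    have := Nat.le_of_dvd (by omega) h2
    omega
  · exact (hp.dvd_mul).1 h2

/-- a prime power dividing `m ∈ {n, n - 1}` and `(m - 1)!` divisible by `p ^ s` -/
theorem key {p s k m : ℕ} (hp : p.Prime) (h3 : 3 ≤ p) (hc : c = 1 ∨ c = 2) (h : c * (a * b) = n !)
    (ha : ¬ p ^ (s + 1) ∣ a) (hm : 0 < m) (hmn : m ≤ n) (hk : p ^ k ∣ m) (hs : p ^ s ∣ (m - 1)!) :
    p ^ k ∣ b := by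
  apply dvd_of_mul hp ha
  have h1 : p ^ (s + k) ∣ c * (a * b) := by
    rw [h, add_comm, pow_add]
    refine dvd_trans (mul_dvd_mul hk hs) ?_
    rw [Nat.mul_factorial_pred hm.ne']
    exact Nat.factorial_dvd_factorial hmn
  exact (coprime_c hp h3 hc (s + k)).dvd_of_dvd_mul_left h1

/-- the possible degrees -/
theorem degrees (hn : 3 ≤ n) (hc : c = 1 ∨ c = 2) (h : c * (a * b) = n !) (g2 : ¬ 2 ^ 9 ∣ c * a)
    (g3 : ¬ 3 ^ 5 ∣ a) (g5 : ∀ p : ℕ, p.Prime → 5 ≤ p → ¬ p ^ 3 ∣ a) (hna : ¬ n ∣ a) (hnb : ¬ n ∣ b) :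
    (∃ q : ℕ, q.Prime ∧ 3 ≤ q ∧ n = 2 * q) ∨ (n = 4 ∧ c = 2) := by
  have hnb' := hnb
  rw [Nat.dvd_iff_prime_pow_dvd_dvd] at hnb'
  push Not at hnb'
  obtain ⟨p, k, hp, hk, hkb⟩ := hnb'
  have hk0 : k ≠ 0 := by rintro rfl; simp at hkb
  have hpn : p ∣ n := dvd_trans (dvd_pow_self p hk0) hk
  rcases Nat.lt_or_ge p 5 with hp5 | hp5
  · have h2 := hp.two_le
    interval_cases p
    · -- p = 2
      have hn10 : n ≤ 10 := by
        by_contra hn10
        apply hkb
        apply dvd_of_mul Nat.prime_two g2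
        rw [mul_assoc, h, add_comm, pow_add]
        have h8 : 2 ^ 8 ∣ (n - 1)! :=
          dvd_trans (by decide) (Nat.factorial_dvd_factorial (show 10 ≤ n - 1 by omega))
        have := mul_dvd_mul hk h8
        rwa [Nat.mul_factorial_pred (by omega)] at this
      obtain ⟨t, ht⟩ := hpn
      have ht5 : t ≤ 5 := by omega
      have ht2 : 2 ≤ t := by omega
      interval_cases t
      · -- n = 4
        right
        refine ⟨ht, ?_⟩
        rcases hc with rfl | rfl
        · exfalso
          subst ht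
          apply hnb
          have h8 : 2 ^ 3 ∣ a * b := by
            rw [one_mul] at h
            rw [h]; decide
          exact dvd_of_mul (s := 1) (k := 2) Nat.prime_two hna h8
        · rfl
      · left; exact ⟨3, by norm_num, by norm_num, ht⟩
      · exfalso
        subst ht
        apply hnb
        have h8 : 2 ^ (2 + 3) ∣ a * b := by
          have h9 : 2 ^ 6 ∣ c * (a * b) := by rw [h]; decide
          rcases hc with rfl | rfl
          · rw [one_mul] at h9
            exact dvd_trans (by decide) h9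
          · have : 2 * 2 ^ 5 ∣ 2 * (a * b) := by
              refine dvd_trans (by decide) h9
            exact Nat.dvd_of_mul_dvd_mul_left (by norm_num) this
        exact dvd_of_mul (s := 2) (k := 3) Nat.prime_two hna h8
      · left; exact ⟨5, by norm_num, by norm_num, ht⟩
    · -- p = 3
      have hn9 : n ≤ 9 := by
        by_contra hn9
        apply hkb
        exact key (s := 4) hp le_rfl hc h g3 (by omega) le_rfl hk
          (dvd_trans (by decide) (Nat.factorial_dvd_factorial (show 9 ≤ n - 1 by omega)))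
      obtain ⟨t, ht⟩ := hpn
      have ht3 : t ≤ 3 := by omega
      have ht1 : 1 ≤ t := by omega
      interval_cases t
      · exfalso
        have := prime_case hp le_rfl hc h (by omega)
        rw [mul_one] at ht
        rw [← ht] at this
        exact this.elim hna hnb
      · left; exact ⟨3, by norm_num, by norm_num, ht⟩
      · exfalso
        subst ht
        apply hnb
        have h9 : 3 ^ (1 + 2) ∣ a * b := by
          have h10 : 3 ^ (1 + 2) ∣ c * (a * b) := by rw [h]; decide
          exact (coprime_c hp le_rfl hc (1 + 2)).dvd_of_dvd_mul_left h10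
        exact dvd_of_mul (s := 1) (k := 2) hp hna h9
    · exact absurd hp (by norm_num)
  · have hn3 : n < 3 * p := by
      by_contra hn3
      apply hkb
      exact key (s := 2) hp (by omega) hc h (g5 p hp hp5) (by omega) le_rfl hk
        (sq_dvd_factorial hp (by omega))
    obtain ⟨t, ht⟩ := hpn
    have ht3 : t < 3 := by
      by_contra h'
      have : p * 3 ≤ p * t := Nat.mul_le_mul_left _ (by omega)
      omega
    have ht1 : t ≠ 0 := by rintro rfl; omega
    have : t = 1 ∨ t = 2 := by omega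
    rcases this with rfl | rfl
    · exfalso
      have := prime_case hp (by omega) hc h (by omega)
      rw [mul_one] at ht
      rw [← ht] at this
      exact this.elim hna hnb
    · left; exact ⟨p, hp, by omega, by omega⟩

theorem odd_case {q : ℕ} (hq : q.Prime) (hq3 : 3 ≤ q) (hc : c = 1 ∨ c = 2) (h : c * (a * b) = (2 * q)!)
    (g3 : ¬ 3 ^ 5 ∣ a) (g5 : ∀ p : ℕ, p.Prime → 5 ≤ p → ¬ p ^ 3 ∣ a) :
    (2 * q - 1) ∣ a ∨ (2 * q - 1) ∣ b := by
  by_contra hcon
  push Not at hcon
  obtain ⟨hna, hnb⟩ := hcon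
  have hnb' := hnb
  rw [Nat.dvd_iff_prime_pow_dvd_dvd] at hnb'
  push Not at hnb'
  obtain ⟨r, k, hr, hk, hkb⟩ := hnb'
  have hk0 : k ≠ 0 := by rintro rfl; simp at hkb
  have hrn : r ∣ 2 * q - 1 := dvd_trans (dvd_pow_self r hk0) hk
  have hr2 : r ≠ 2 := by rintro rfl; omega
  have hr3 : 3 ≤ r := by have := hr.two_le; omega
  have hq7 : q = 3 ∨ q = 5 ∨ 7 ≤ q := by
    rcases Nat.lt_or_ge q 7 with h7 | h7
    · have h4 : q ≠ 4 := by rintro rfl; exact absurd hq (by norm_num)
      have h6 : q ≠ 6 := by rintro rfl; exact absurd hq (by norm_num)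
      omega
    · exact Or.inr (Or.inr h7)
  rcases hq7 with rfl | rfl | hq7
  · have := prime_case (p := 5) (by norm_num) (by norm_num) hc h (by norm_num)
    exact this.elim hna hnb
  · apply hnb
    have h9 : 3 ^ (1 + 2) ∣ a * b := by
      have h10 : 3 ^ (1 + 2) ∣ c * (a * b) := by rw [h]; decide
      exact (coprime_c Nat.prime_three le_rfl hc (1 + 2)).dvd_of_dvd_mul_left h10
    exact dvd_of_mul (s := 1) (k := 2) Nat.prime_three hna h9
  · rcases Nat.lt_or_ge r 5 with hr5 | hr5
    · have hr4 : r = 3 := by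
        have : r ≠ 4 := by rintro rfl; exact absurd hr (by norm_num)
        omega
      subst hr4
      apply hkb
      exact key (s := 4) hr le_rfl hc h g3 (m := 2 * q - 1) (by omega) (by omega) hk
        (dvd_trans (by decide) (Nat.factorial_dvd_factorial (show 9 ≤ 2 * q - 1 - 1 by omega)))
    · obtain ⟨t, ht⟩ := hrn
      have ht0 : t ≠ 0 := by rintro rfl; omega
      have ht2 : t ≠ 2 := by rintro rfl; omega
      by_cases ht1 : t = 1
      · subst ht1
        rw [mul_one] at ht
        have := prime_case hr (by omega) hc h (by omega)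
        rw [← ht] at this
        exact this.elim hna hnb
      · have : r * 3 ≤ r * t := Nat.mul_le_mul_left _ (by omega)
        apply hkb
        exact key (s := 2) hr (by omega) hc h (g5 r hr hr5) (m := 2 * q - 1) (by omega) (by omega) hk
          (sq_dvd_factorial hr (by omega))

theorem parity {q : ℕ} (hq : q.Prime) (hq3 : 3 ≤ q) (hc : c = 1 ∨ c = 2) (h : c * (a * b) = (2 * q)!)
    (hna : ¬ 2 * q ∣ a) (hnb : ¬ 2 * q ∣ b) : (q ∣ a ∧ 2 ∣ b) ∨ (q ∣ b ∧ 2 ∣ a) := by
  have hcop : Nat.Coprime 2 q := (Nat.coprime_primes Nat.prime_two hq).2 (by omega)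
  have h2 : 2 ∣ a ∨ 2 ∣ b := by
    rw [← Nat.prime_two.dvd_mul]
    have h4 : 2 * 2 ∣ c * (a * b) := by
      rw [h]
      exact dvd_trans (by decide) (Nat.factorial_dvd_factorial (show 4 ≤ 2 * q by omega))
    rcases hc with rfl | rfl
    · rw [one_mul] at h4
      exact dvd_trans (by decide) h4
    · exact Nat.dvd_of_mul_dvd_mul_left (by norm_num) h4
  have hq' := prime_case hq hq3 hc h (by omega)
  rcases h2 with h2 | h2
  · right
    refine ⟨?_, h2⟩
    rcases hq' with h' | h'
    · exact absurd (hcop.mul_dvd_of_dvd_of_dvd h2 h') hna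
    · exact h'
  · left
    refine ⟨?_, h2⟩
    rcases hq' with h' | h'
    · exact h'
    · exact absurd (hcop.mul_dvd_of_dvd_of_dvd h2 h') hnb

end Pool.Agent.Helper71.SF
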