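import Pool.Agent.Helper71.SF.Pair
import Pool.Agent.Helper71.SF.Num

/-!
# Factorizations of symmetric and alternating groups, part 4: the induction
-/

set_option autoImplicit false

namespace Pool.Agent.Helper71.SF

open Pool.Agent.Helper10.FG Equiv Nat
open scoped Pointwise

theorem realised_equiv {G H : Type*} [Group G] [Group H] (f : G ≃* H) {a b : ℕ} (h : Realised G a b) :
    Realised H a b := by
  obtain ⟨A, B, hA, hB, hAB⟩ := h
  refine ⟨f '' A, f '' B, ?_, ?_, ?_⟩
  · rw [Set.ncard_image_of_injective _ f.injective, hA]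
  · rw [Set.ncard_image_of_injective _ f.injective, hB]
  · rw [← Set.image_mul f, hAB, Set.image_univ, f.surjective.range_eq]

/-- the quotient `n! / |Gr e α|` -/
def cc (e : Bool) : ℕ := if e = true then 2 else 1

theorem cc_or (e : Bool) : cc e = 1 ∨ cc e = 2 := by
  unfold cc; split_ifs <;> simp

theorem cc_pos (e : Bool) : 0 < cc e := by
  rcases cc_or e with h | h <;> omega

theorem card_Gr (e : Bool) (α : Type*) [Fintype α] [DecidableEq α] (h2 : e = true → 2 ≤ Fintype.card α) :
    cc e * Nat.card (Gr e α) = (Fintype.card α)! := by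
  cases e with
  | false =>
    have : Gr false α = ⊤ := by simp [Gr]
    rw [this]
    simp only [cc]
    rw [Nat.card_congr (Subgroup.topEquiv (G := Perm α)).toEquiv, Nat.card_eq_fintype_card,
      Fintype.card_perm]
    simp
  | true =>
    have : Gr true α = alternatingGroup α := by simp [Gr]
    rw [this]
    simp only [cc, if_true]
    have : Nontrivial α := Fintype.one_lt_card_iff_nontrivial.1 (h2 rfl)
    have := two_mul_nat_card_alternatingGroup (α := α)
    rw [this, Nat.card_eq_fintype_card, Fintype.card_perm]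

/-- the hypothesis on a factor -/
def Good (c a : ℕ) : Prop := ¬ 2 ^ 9 ∣ c * a ∧ ¬ 3 ^ 5 ∣ a ∧ ∀ p : ℕ, p.Prime → 5 ≤ p → ¬ p ^ 3 ∣ a

theorem Good.of_dvd {c a a' : ℕ} (h : Good c a) (hd : a' ∣ a) : Good c a' :=
  ⟨fun h1 => h.1 (h1.trans (mul_dvd_mul_left c hd)), fun h1 => h.2.1 (h1.trans hd),
    fun p hp h5 h1 => h.2.2 p hp h5 (h1.trans hd)⟩

theorem realised_trivial {G : Type*} [Group G] (h1 : Nat.card G = 1) {a b : ℕ} (hab : a * b = Nat.card G) :
    Realised G a b := by
  have : Finite G := Nat.finite_of_card_ne_zero (by omega)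
  rw [h1] at hab
  obtain ⟨rfl, rfl⟩ : a = 1 ∧ b = 1 := ⟨Nat.eq_one_of_mul_eq_one_right hab, Nat.eq_one_of_mul_eq_one_left hab⟩
  have : Subsingleton G := (Nat.card_eq_one_iff_unique.1 h1).1
  refine ⟨{1}, {1}, Set.ncard_singleton _, Set.ncard_singleton _, ?_⟩
  apply Set.eq_univ_of_forall
  intro g
  rw [Subsingleton.elim g 1]
  exact Set.mem_mul.mpr ⟨1, rfl, 1, rfl, one_mul 1⟩

theorem main (e : Bool) : ∀ (n : ℕ) (α : Type) [Fintype α] [DecidableEq α], Fintype.card α = n →
    ∀ a b : ℕ, a * b = Nat.card (Gr e α) → Good (cc e) a → Realised (Gr e α) a b := by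
  intro n
  induction n using Nat.strong_induction_on with
  | _ n ih =>
  intro α _ _ hα a b hab hg
  by_cases h1 : Nat.card (Gr e α) = 1
  · exact realised_trivial h1 hab
  have hn2 : 2 ≤ n := by
    by_contra hn
    apply h1
    have : Subsingleton α := Fintype.card_le_one_iff_subsingleton.1 (by omega)
    exact Nat.card_unique
  have hn3 : e = true → 3 ≤ n := by
    intro he
    subst he
    by_contra hn
    have := card_Gr true α (fun _ => by omega)
    rw [hα, show n = 2 by omega] at this
    simp only [cc, if_true] at this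
    have h2 : (2 : ℕ)! = 2 := rfl
    omega
  have hcard := card_Gr e α (fun _ => by omega)
  rw [hα, ← hab] at hcard
  have hc := cc_or e
  -- the step with one point
  have S1 : ∀ x y : ℕ, cc e * (x * y) = (n - 1)! → (Good (cc e) x ∨ Good (cc e) y) →
      Realised (Gr e α) (n * x) y ∧ Realised (Gr e α) x (n * y) := by
    intro x y hxy hgx
    have : Nonempty α := Fintype.card_pos_iff.1 (by omega)
    obtain ⟨a0⟩ := this
    have hβ : Fintype.card {z // z ≠ a0} = n - 1 := by
      rw [Fintype.card_subtype_compl, Fintype.card_subtype_eq, hα]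
    have hcβ : x * y = Nat.card (Gr e {z // z ≠ a0}) := by
      have := card_Gr e {z // z ≠ a0} (fun he => by have := hn3 he; omega)
      rw [hβ, ← hxy] at this
      exact (Nat.eq_of_mul_eq_mul_left (cc_pos e) this).symm
    have hr : Realised (Gr e {z // z ≠ a0}) x y := by
      rcases hgx with h | h
      · exact ih (n - 1) (by omega) _ hβ x y hcβ h
      · exact (ih (n - 1) (by omega) _ hβ y x (by rw [mul_comm, hcβ]) h).symm
    have hGr : n * (x * y) = Nat.card (Gr e α) := by
      rw [← hab]
      apply Nat.eq_of_mul_eq_mul_left (cc_pos e)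
      rw [hcard, mul_left_comm, hxy, Nat.mul_factorial_pred (by omega)]
    have h3 : e = true → 3 ≤ Fintype.card α := fun he => by rw [hα]; exact hn3 he
    constructor
    · have := step1 e h3 a0 hr (by rw [hα, mul_assoc, hGr])
      rwa [hα] at this
    · have := step1 e h3 a0 hr.symm (by rw [hα, mul_assoc, mul_comm y x, hGr])
      rw [hα] at this
      exact this.symm
  by_cases hna : n ∣ a
  · obtain ⟨a', rfl⟩ := hna
    refine (S1 a' b ?_ (Or.inl (hg.of_dvd (Dvd.intro_left n rfl)))).1
    apply Nat.eq_of_mul_eq_mul_left (show 0 < n by omega)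
    rw [Nat.mul_factorial_pred (by omega), ← hcard]; ring
  by_cases hnb : n ∣ b
  · obtain ⟨b', rfl⟩ := hnb
    refine (S1 a b' ?_ (Or.inl hg)).2
    apply Nat.eq_of_mul_eq_mul_left (show 0 < n by omega)
    rw [Nat.mul_factorial_pred (by omega), ← hcard]; ring
  have hn3' : 3 ≤ n := by
    by_contra hn
    have h2 : n = 2 := by omega
    subst h2
    cases e with
    | true => exact absurd (hn3 rfl) hn
    | false =>
      have h2 : (2 : ℕ)! = 2 := rfl
      simp only [cc, Bool.false_eq_true, if_false, h2, one_mul] at hcard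
      have : 2 ∣ a * b := by rw [hcard]
      exact ((Nat.prime_two.dvd_mul).1 this).elim hna hnb
  rcases degrees hn3' hc hcard hg.1 hg.2.1 hg.2.2 hna hnb with ⟨q, hq, hq3, hnq⟩ | ⟨h4, hc2⟩
  · -- n = 2 q
    subst hnq
    have hq0 : 0 < q := by omega
    have : Nontrivial α := Fintype.one_lt_card_iff_nontrivial.1 (by omega)
    obtain ⟨a0, a1, ha01⟩ := exists_pair_ne α
    have hβ : Fintype.card {z // z ≠ a0 ∧ z ≠ a1} = 2 * q - 2 := by
      rw [Fintype.card_subtype]
      have : (Finset.univ.filter fun z : α => z ≠ a0 ∧ z ≠ a1) = (Finset.univ.erase a0).erase a1 := by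
        ext z; simp [and_comm]
      rw [this, Finset.card_erase_of_mem (Finset.mem_erase.2 ⟨ha01.symm, Finset.mem_univ _⟩),
        Finset.card_erase_of_mem (Finset.mem_univ _), Finset.card_univ, hα]
      omega
    have hfac : (2 * q)! = 2 * q * ((2 * q - 1) * (2 * q - 2)!) := by
      rw [show 2 * q - 2 = 2 * q - 1 - 1 by omega, Nat.mul_factorial_pred (by omega),
        Nat.mul_factorial_pred (by omega)]
    -- the step with two points
    have S2 : ∀ x y : ℕ, cc e * (x * y) = (2 * q - 2)! → (Good (cc e) x ∨ Good (cc e) y) →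
        Realised (Gr e α) (q * (2 * q - 1) * x) (2 * y) ∧
          Realised (Gr e α) (q * x) (2 * (2 * q - 1) * y) := by
      intro x y hxy hgx
      have hcβ : x * y = Nat.card (Gr e {z // z ≠ a0 ∧ z ≠ a1}) := by
        have := card_Gr e {z // z ≠ a0 ∧ z ≠ a1} (fun he => by omega)
        rw [hβ, ← hxy] at this
        exact (Nat.eq_of_mul_eq_mul_left (cc_pos e) this).symm
      have hr : Realised (Gr e {z // z ≠ a0 ∧ z ≠ a1}) x y := by
        rcases hgx with h | h
        · exact ih (2 * q - 2) (by omega) _ hβ x y hcβ h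
        · exact (ih (2 * q - 2) (by omega) _ hβ y x (by rw [mul_comm, hcβ]) h).symm
      have hGr : 2 * q * ((2 * q - 1) * (x * y)) = Nat.card (Gr e α) := by
        rw [← hab]
        apply Nat.eq_of_mul_eq_mul_left (cc_pos e)
        rw [hcard, hfac, ← hxy]; ring
      have h4 : e = true → 4 ≤ Fintype.card α := fun he => by rw [hα]; omega
      constructor
      · apply step2A e h4 ha01 _ hr
        · rw [← hGr]; ring
        · rw [hα, Nat.choose_two_right, mul_assoc]
          exact Nat.mul_div_cancel_left _ (by norm_num)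
      · apply step2B e h4 ha01 hα hr
        rw [← hGr]; ring
    have hcop : Nat.Coprime q (2 * q - 1) := by
      rw [hq.coprime_iff_not_dvd]
      rintro ⟨t, ht⟩
      have ht0 : t ≠ 0 := by rintro rfl; omega
      have ht2 : t < 2 := by
        by_contra h
        have : q * 2 ≤ q * t := Nat.mul_le_mul_left _ (by omega)
        omega
      have ht1 : t = 1 := by omega
      rw [ht1] at ht
      omega
    have hcop2 : Nat.Coprime 2 (2 * q - 1) := by
      rw [Nat.prime_two.coprime_iff_not_dvd]
      omega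
    have hpos : 0 < 2 * q * (2 * q - 1) := Nat.mul_pos (by omega) (by omega)
    have main2 : ∀ x y : ℕ, cc e * (x * y) = (2 * q)! → (Good (cc e) x ∨ Good (cc e) y) → q ∣ x → 2 ∣ y →
        ((2 * q - 1) ∣ x ∨ (2 * q - 1) ∣ y) → Realised (Gr e α) x y := by
      intro x y hxy hgx hqx h2y hw
      rcases hw with hw | hw
      · obtain ⟨x', rfl⟩ := hcop.mul_dvd_of_dvd_of_dvd hqx hw
        obtain ⟨y', rfl⟩ := h2y
        refine (S2 x' y' ?_ ?_).1
        · apply Nat.eq_of_mul_eq_mul_left hpos
          rw [mul_assoc (2 * q), mul_assoc (2 * q), ← hfac, ← hxy]; ring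
        · rcases hgx with h | h
          · exact Or.inl (h.of_dvd (Dvd.intro_left _ rfl))
          · exact Or.inr (h.of_dvd (Dvd.intro_left _ rfl))
      · obtain ⟨x', rfl⟩ := hqx
        obtain ⟨y', rfl⟩ := hcop2.mul_dvd_of_dvd_of_dvd h2y hw
        refine (S2 x' y' ?_ ?_).2
        · apply Nat.eq_of_mul_eq_mul_left hpos
          rw [mul_assoc (2 * q), mul_assoc (2 * q), ← hfac, ← hxy]; ring
        · rcases hgx with h | h
          · exact Or.inl (h.of_dvd (Dvd.intro_left _ rfl))
          · exact Or.inr (h.of_dvd (Dvd.intro_left _ rfl))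
    have hodd := odd_case hq hq3 hc hcard hg.2.1 hg.2.2
    rcases parity hq hq3 hc hcard hna hnb with ⟨h1, h2⟩ | ⟨h1, h2⟩
    · exact main2 a b hcard (Or.inl hg) h1 h2 hodd
    · exact (main2 b a (by rw [mul_comm b a, hcard]) (Or.inr hg) h1 h2 hodd.symm).symm
  · -- the alternating group of degree four
    have hG : a * b = 12 := by
      rw [hc2, h4] at hcard
      have h24 : (4 : ℕ)! = 24 := rfl
      omega
    obtain ⟨x, hx⟩ := exists_prime_orderOf_dvd_card' (G := Gr e α) 2 (by
      rw [← hab, hG]; norm_num)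
    have hZ : Nat.card (Subgroup.zpowers x) = 2 := by rw [Nat.card_zpowers, hx]
    subst h4
    have ha : a ∣ 12 := Dvd.intro _ hG
    have ha12 : a ≤ 12 := Nat.le_of_dvd (by norm_num) ha
    have ha0 : a ≠ 0 := by rintro rfl; omega
    have key : (a = 6 ∧ b = 2) ∨ (a = 2 ∧ b = 6) := by
      interval_cases a <;> omega
    rcases key with ⟨rfl, rfl⟩ | ⟨rfl, rfl⟩
    · exact realised_of_card _ hab hZ
    · exact (realised_of_card (a := 6) _ (by rw [← hab]) hZ).symm

end Pool.Agent.Helper71.SF
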