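import Pool.Agent.Helper71.SF.Cover

/-!
# Factorizations of symmetric and alternating groups, part 2: pairs of points
-/

set_option autoImplicit false

namespace Pool.Agent.Helper71.SF

open Pool.Agent.Helper10.FG Equiv
open scoped Pointwise

variable {α : Type*} [Fintype α] [DecidableEq α]

/-- all 2-subsets on the left, the transposition on the right -/
theorem step2A (e : Bool) (h4 : e = true → 4 ≤ Fintype.card α) {a b : α} (hab : a ≠ b) {x y u : ℕ}
    (hu : (Fintype.card α).choose 2 = u)
    (hr : Realised (Gr e {z // z ≠ a ∧ z ≠ b}) x y) (hcard : (u * x) * (2 * y) = Nat.card (Gr e α)) :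
    Realised (Gr e α) (u * x) (2 * y) := by
  choose T hT using fun (c : {c : α × α // c.1 ≠ c.2}) => trans2 (e := e) h4 hab c.2
  have hs : ∀ s : {s : Finset α // s.card = 2}, ∃ c : {c : α × α // c.1 ≠ c.2},
      (s : Finset α) = {c.1.1, c.1.2} := by
    rintro ⟨s, hs⟩
    obtain ⟨c, d, hcd, h⟩ := Finset.card_eq_two.1 hs
    exact ⟨⟨(c, d), hcd⟩, h⟩
  choose P hP using hs
  refine realised_of_cover (ext e (fun z => z ≠ a ∧ z ≠ b)) (Set.range (fun s => T (P s)))
    {1, T ⟨(b, a), hab.symm⟩} ?_ ?_ ?_ hr hcard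
  · rw [← Set.image_univ]
    refine (Set.ncard_image_le (Set.toFinite _)).trans ?_
    rw [Set.ncard_univ, Nat.card_eq_fintype_card, Fintype.card_finset_len, hu]
  · exact (Set.ncard_insert_le _ _).trans (by rw [Set.ncard_singleton])
  · intro g
    have hne : (g : Perm α) a ≠ (g : Perm α) b := fun h => hab ((g : Perm α).injective h)
    let s : {s : Finset α // s.card = 2} := ⟨{(g : Perm α) a, (g : Perm α) b}, Finset.card_pair hne⟩
    have h1 := hP s
    have h2 := hT (P s)
    set c := (P s).1.1 with hc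
    set d := (P s).1.2 with hd
    have hcs : (c = (g : Perm α) a ∧ d = (g : Perm α) b) ∨ (c = (g : Perm α) b ∧ d = (g : Perm α) a) := by
      have hcd : c ≠ d := (P s).2
      have hcm : c ∈ ({(g : Perm α) a, (g : Perm α) b} : Finset α) := by
        have : c ∈ (s : Finset α) := by rw [h1]; simp
        exact this
      have hdm : d ∈ ({(g : Perm α) a, (g : Perm α) b} : Finset α) := by
        have : d ∈ (s : Finset α) := by rw [h1]; simp
        exact this
      rw [Finset.mem_insert, Finset.mem_singleton] at hcm hdm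
      rcases hcm with h | h <;> rcases hdm with h' | h'
      · exact absurd (h.trans h'.symm) hcd
      · exact Or.inl ⟨h, h'⟩
      · exact Or.inr ⟨h, h'⟩
      · exact absurd (h.trans h'.symm) hcd
    rcases hcs with ⟨h3, h4⟩ | ⟨h3, h4⟩
    · obtain ⟨h, hh⟩ := exists_ext (e := e) (fun z => z ≠ a ∧ z ≠ b) ((T (P s))⁻¹ * g) (by
        intro z hz
        rw [not_and_or, not_not, not_not] at hz
        rw [Subgroup.coe_mul, Perm.mul_apply, Subgroup.coe_inv, Perm.inv_eq_iff_eq]
        rcases hz with rfl | rfl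
        · rw [h2.1, h3]
        · rw [h2.2, h4])
      exact ⟨T (P s), ⟨_, rfl⟩, h, 1, by simp, by rw [hh]; group⟩
    · have h5 := hT ⟨(b, a), hab.symm⟩
      obtain ⟨h, hh⟩ := exists_ext (e := e) (fun z => z ≠ a ∧ z ≠ b)
          ((T (P s))⁻¹ * g * (T ⟨(b, a), hab.symm⟩)⁻¹) (by
        intro z hz
        rw [not_and_or, not_not, not_not] at hz
        rw [Subgroup.coe_mul, Perm.mul_apply, Subgroup.coe_mul, Perm.mul_apply, Subgroup.coe_inv,
          Perm.inv_eq_iff_eq]
        rcases hz with rfl | rfl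
        · have : ((T ⟨(b, z), hab.symm⟩)⁻¹ : Gr e α).1 z = b := by
            rw [Subgroup.coe_inv, Perm.inv_eq_iff_eq]; exact h5.2.symm
          rw [this, h2.1, h3]
        · have : ((T ⟨(z, a), hab.symm⟩)⁻¹ : Gr e α).1 z = a := by
            rw [Subgroup.coe_inv, Perm.inv_eq_iff_eq]; exact h5.1.symm
          rw [this, h2.2, h4])
      exact ⟨T (P s), ⟨_, rfl⟩, h, T ⟨(b, a), hab.symm⟩, by simp, by rw [hh]; group⟩

/-- a perfect matching on the left, a star on the right -/
theorem step2B (e : Bool) (h4 : e = true → 4 ≤ Fintype.card α) {a b : α} (hab : a ≠ b) {x y q : ℕ}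
    (hq : Fintype.card α = 2 * q)
    (hr : Realised (Gr e {z // z ≠ a ∧ z ≠ b}) x y)
    (hcard : (q * x) * (2 * (2 * q - 1) * y) = Nat.card (Gr e α)) :
    Realised (Gr e α) (q * x) (2 * (2 * q - 1) * y) := by
  choose T hT using fun (c : {c : α × α // c.1 ≠ c.2}) => trans2 (e := e) h4 hab c.2
  obtain ⟨E⟩ : Nonempty (α ≃ Fin q × Bool) := by
    apply Fintype.card_eq.1
    rw [hq, Fintype.card_prod, Fintype.card_fin, Fintype.card_bool, mul_comm]
  have hE : ∀ i : Fin q, E.symm (i, false) ≠ E.symm (i, true) := by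
    intro i h
    have := E.symm.injective h
    simp at this
  let X : Fin q → Gr e α := fun i => T ⟨(E.symm (i, false), E.symm (i, true)), hE i⟩
  let Y : Bool × {c : α // c ≠ a} → Gr e α := fun p =>
    if p.1 = true then (T ⟨(p.2.1, a), p.2.2⟩)⁻¹ else (T ⟨(a, p.2.1), p.2.2.symm⟩)⁻¹
  refine realised_of_cover (ext e (fun z => z ≠ a ∧ z ≠ b)) (Set.range X) (Set.range Y) ?_ ?_ ?_ hr hcard
  · rw [← Set.image_univ]
    refine (Set.ncard_image_le (Set.toFinite _)).trans ?_
    rw [Set.ncard_univ, Nat.card_eq_fintype_card, Fintype.card_fin]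
  · rw [← Set.image_univ]
    refine (Set.ncard_image_le (Set.toFinite _)).trans ?_
    rw [Set.ncard_univ, Nat.card_eq_fintype_card, Fintype.card_prod, Fintype.card_bool,
      Fintype.card_subtype_compl, Fintype.card_subtype_eq, hq]
  · intro g
    set G : Perm α := (g : Perm α) with hG
    obtain ⟨i, s, his⟩ : ∃ i s, E (G a) = (i, s) := ⟨(E (G a)).1, (E (G a)).2, rfl⟩
    have hGa : G a = E.symm (i, s) := by rw [← his, Equiv.symm_apply_apply]
    set z : α := E.symm (i, !s) with hz
    have hzne : z ≠ G a := by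
      rw [hGa, hz]
      intro h
      have := E.symm.injective h
      simp at this
    set c : α := G.symm z with hc
    have hGc : G c = z := G.apply_symm_apply z
    have hca : c ≠ a := by
      intro h
      apply hzne
      rw [← hGc, h]
    have hX := hT ⟨(E.symm (i, false), E.symm (i, true)), hE i⟩
    cases s with
    | false =>
      have hY := hT ⟨(a, c), hca.symm⟩
      obtain ⟨h, hh⟩ := exists_ext (e := e) (fun z => z ≠ a ∧ z ≠ b)
          ((X i)⁻¹ * g * (T ⟨(a, c), hca.symm⟩)) (by
        intro w hw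
        rw [not_and_or, not_not, not_not] at hw
        rw [Subgroup.coe_mul, Perm.mul_apply, Subgroup.coe_mul, Perm.mul_apply, Subgroup.coe_inv,
          Perm.inv_eq_iff_eq]
        rcases hw with rfl | rfl
        · rw [hY.1]
          exact hGa.trans hX.1.symm
        · rw [hY.2]
          exact hGc.trans hX.2.symm)
      refine ⟨X i, ⟨_, rfl⟩, h, (T ⟨(a, c), hca.symm⟩)⁻¹, ⟨(false, ⟨c, hca⟩), by simp [Y]⟩, ?_⟩
      rw [hh]; group
    | true =>
      have hY := hT ⟨(c, a), hca⟩
      obtain ⟨h, hh⟩ := exists_ext (e := e) (fun z => z ≠ a ∧ z ≠ b)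
          ((X i)⁻¹ * g * (T ⟨(c, a), hca⟩)) (by
        intro w hw
        rw [not_and_or, not_not, not_not] at hw
        rw [Subgroup.coe_mul, Perm.mul_apply, Subgroup.coe_mul, Perm.mul_apply, Subgroup.coe_inv,
          Perm.inv_eq_iff_eq]
        rcases hw with rfl | rfl
        · rw [hY.1]
          exact hGc.trans hX.1.symm
        · rw [hY.2]
          exact hGa.trans hX.2.symm)
      refine ⟨X i, ⟨_, rfl⟩, h, (T ⟨(c, a), hca⟩)⁻¹, ⟨(true, ⟨c, hca⟩), by simp [Y]⟩, ?_⟩
      rw [hh]; group

end Pool.Agent.Helper71.SF
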