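import Pool.Agent.Helper71.SF.Steps

/-!
# Factorizations of symmetric and alternating groups, part 7: all factors `a ≤ n³ / 64`
-/

set_option autoImplicit false

namespace Pool.Agent.Helper71.SF

open Pool.Agent.Helper10.FG Equiv Nat

theorem pow_dvd_factorial (r i : ℕ) (hr : 0 < r) : r ^ i ∣ (r * i)! := by
  induction i with
  | zero => simp
  | succ i ih =>
    have h1 : (r * (i + 1))! = r * (i + 1) * (r * (i + 1) - 1)! := by
      rw [Nat.mul_factorial_pred]
      exact (Nat.mul_pos hr (Nat.succ_pos i)).ne'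
    have h2 : (r * i)! ∣ (r * (i + 1) - 1)! := Nat.factorial_dvd_factorial (by
      rw [Nat.mul_succ]; omega)
    rw [h1, pow_succ, mul_comm (r ^ i) r]
    exact mul_dvd_mul (Dvd.intro _ rfl) (ih.trans h2)

theorem pow_dvd_factorial' {r i N : ℕ} (hr : 0 < r) (h : r * i ≤ N) : r ^ i ∣ N ! :=
  (pow_dvd_factorial r i hr).trans (Nat.factorial_dvd_factorial h)

theorem two_pow_ge {y : ℕ} (hy : 12 ≤ y) : 2 * y ^ 3 ≤ 2 ^ y := by
  induction y, hy using Nat.le_induction with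
  | base => norm_num
  | succ y hy ih =>
    have : 2 * (y + 1) ^ 3 ≤ 2 * (2 * y ^ 3) := by
      have : (y + 1) ^ 3 ≤ 2 * y ^ 3 := by
        have h1 : 12 * y ^ 2 ≤ y ^ 3 := by rw [pow_succ y 2, mul_comm]; exact Nat.mul_le_mul_left _ hy
        have h2 : 12 * y ≤ y ^ 2 := by rw [pow_two]; exact Nat.mul_le_mul_right _ hy
        nlinarith
      omega
    calc 2 * (y + 1) ^ 3 ≤ 2 * (2 * y ^ 3) := this
      _ ≤ 2 * 2 ^ y := Nat.mul_le_mul_left 2 ih
      _ = 2 ^ (y + 1) := by rw [pow_succ]; ring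

theorem three_pow_ge {y : ℕ} (hy : 6 ≤ y) : 2 * y ^ 3 ≤ 3 ^ y := by
  induction y, hy using Nat.le_induction with
  | base => norm_num
  | succ y hy ih =>
    have : 2 * (y + 1) ^ 3 ≤ 3 * (2 * y ^ 3) := by
      have : (y + 1) ^ 3 ≤ 2 * y ^ 3 := by
        have h1 : 6 * y ^ 2 ≤ y ^ 3 := by rw [pow_succ y 2, mul_comm]; exact Nat.mul_le_mul_left _ hy
        have h2 : 6 * y ≤ y ^ 2 := by rw [pow_two]; exact Nat.mul_le_mul_right _ hy
        nlinarith
      omega
    calc 2 * (y + 1) ^ 3 ≤ 3 * (2 * y ^ 3) := this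
      _ ≤ 3 * 3 ^ y := Nat.mul_le_mul_left 3 ih
      _ = 3 ^ (y + 1) := by rw [pow_succ]; ring

theorem cube_lt {a b : ℕ} (h : a < b) : a ^ 3 < b ^ 3 := Nat.pow_lt_pow_left h (by norm_num)

theorem two_case {n N k : ℕ} (hn : 20 ≤ n) (hN : 3 * n ≤ 5 * N) (h : 32 * 2 ^ k ≤ n ^ 3) : 2 ^ k ∣ N ! := by
  rcases Nat.lt_or_ge (N / 2) k with hk | hk
  · set y := N / 2 + 1 with hy
    have h1 : 2 ^ y ≤ 2 ^ k := Nat.pow_le_pow_right (by norm_num) hk
    have h2 : 3 * n < 10 * y := by omega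
    have h3 := cube_lt h2
    rw [mul_pow, mul_pow] at h3
    rcases Nat.lt_or_ge y 12 with hy12 | hy12
    · have hn36 : n ≤ 36 := by omega
      have h4 : n ^ 3 ≤ 36 ^ 3 := Nat.pow_le_pow_left hn36 3
      have hk10 : k ≤ 10 := by
        by_contra hc
        have : 2 ^ 11 ≤ 2 ^ k := Nat.pow_le_pow_right (by norm_num) (by omega)
        omega
      exact (pow_dvd_pow 2 hk10).trans (dvd_trans (by decide) (Nat.factorial_dvd_factorial
        (show 12 ≤ N by omega)))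
    · have h5 := two_pow_ge hy12
      omega
  · exact (pow_dvd_pow 2 hk).trans (pow_dvd_factorial' (by norm_num) (by omega))

theorem three_case {n N k : ℕ} (hn : 20 ≤ n) (hN : 3 * n ≤ 5 * N) (h : 64 * 3 ^ k ≤ n ^ 3) : 3 ^ k ∣ N ! := by
  rcases Nat.lt_or_ge (N / 3) k with hk | hk
  · exfalso
    set y := N / 3 + 1 with hy
    have h1 : 3 ^ y ≤ 3 ^ k := Nat.pow_le_pow_right (by norm_num) hk
    have h2 : n < 5 * y := by omega
    have h3 := cube_lt h2
    rw [mul_pow] at h3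
    rcases Nat.lt_or_ge y 6 with hy6 | hy6
    · have hy5 : y = 5 := by omega
      have hn24 : n ≤ 24 := by omega
      have h4 : n ^ 3 ≤ 24 ^ 3 := Nat.pow_le_pow_left hn24 3
      rw [hy5] at h1
      omega
    · have h5 := three_pow_ge hy6
      omega
  · exact (pow_dvd_pow 3 hk).trans (pow_dvd_factorial' (by norm_num) (by omega))

/-- the factor that is removed -/
theorem choose_m {n a c : ℕ} (hn : 64 * a ≤ n ^ 3) (ha : 0 < a) (hc : c = 1 ∨ c = 2) (hbad : ¬ Good c a) :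
    ∃ m w : ℕ, 5 ≤ m ∧ m ∣ a ∧ 125 ≤ w ∧ w ∣ a ∧ 3 * n ≤ 5 * ((m - 1) * (n / m)) ∧ 0 < n / m ∧ 20 ≤ n ∧
      ∀ r : ℕ, r.Prime → 5 ≤ r → Nat.Coprime r w ∨ 4 * (r - 1) ≤ (m - 1) * (n / m) := by
  by_cases h1 : ∃ p : ℕ, p.Prime ∧ 5 ≤ p ∧ p ^ 3 ∣ a
  · obtain ⟨p, hp, hp5, hpa⟩ := h1
    have h2 : p ^ 3 ≤ a := Nat.le_of_dvd ha hpa
    have h3 : 4 * p ≤ n := by
      by_contra hlt
      have := cube_lt (not_le.1 hlt)
      rw [mul_pow] at this
      omega
    have hj : 4 ≤ n / p := (Nat.le_div_iff_mul_le (by omega)).2 h3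
    have hj2 : n < p * (n / p + 1) := by
      rw [Nat.mul_succ]
      exact Nat.lt_mul_div_succ n (by omega)
    have hw : 125 ≤ p ^ 3 := (Nat.pow_le_pow_left hp5 3)
    refine ⟨p, p ^ 3, hp5, (dvd_pow_self p (by norm_num)).trans hpa, hw, hpa, ?_, by omega, by omega, ?_⟩
    · obtain ⟨q, rfl⟩ : ∃ q, p = q + 1 := ⟨p - 1, by omega⟩
      set j := n / (q + 1) with hjd
      rw [Nat.add_sub_cancel]
      nlinarith
    · intro r hr hr5
      by_cases hrp : r = p
      · right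
        rw [hrp, mul_comm]
        exact Nat.mul_le_mul_left _ hj
      · left
        exact Nat.Coprime.pow_right 3 ((Nat.coprime_primes hr hp).2 hrp)
  · push Not at h1
    by_cases h2 : 3 ^ 5 ∣ a
    · have h3 : 3 ^ 5 ≤ a := Nat.le_of_dvd ha h2
      have hn25 : 25 ≤ n := by
        by_contra hlt
        have : n ^ 3 ≤ 24 ^ 3 := Nat.pow_le_pow_left (by omega) 3
        omega
      refine ⟨9, 3 ^ 5, by norm_num, dvd_trans (by norm_num) h2, by norm_num, h2, by omega, by omega,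
        by omega, fun r hr hr5 => Or.inl ?_⟩
      exact Nat.Coprime.pow_right 5 ((Nat.coprime_primes hr Nat.prime_three).2 (by omega))
    · have h3 : 2 ^ 9 ∣ c * a := by
        by_contra h3
        exact hbad ⟨h3, h2, h1⟩
      have h4 : 2 ^ 8 ∣ a := by
        rcases hc with rfl | rfl
        · rw [one_mul] at h3
          exact dvd_trans (by norm_num) h3
        · exact Nat.dvd_of_mul_dvd_mul_left (k := 2) (by norm_num) h3
      have h5 : 2 ^ 8 ≤ a := Nat.le_of_dvd ha h4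
      have hn26 : 26 ≤ n := by
        by_contra hlt
        have : n ^ 3 ≤ 25 ^ 3 := Nat.pow_le_pow_left (by omega) 3
        omega
      refine ⟨8, 2 ^ 8, by norm_num, dvd_trans (by norm_num) h4, by norm_num, h4, by omega, by omega,
        by omega, fun r hr hr5 => Or.inl ?_⟩
      exact Nat.Coprime.pow_right 8 ((Nat.coprime_primes hr Nat.prime_two).2 (by omega))

theorem no_large {r t : ℕ} (hr : 5 ≤ r) (ht : 4 ≤ t) : 125 * (r ^ 3 * t ^ 3) < 1728 * r ^ t := by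
  obtain ⟨s, rfl⟩ : ∃ s, t = s + 3 := ⟨t - 3, by omega⟩
  have h1 : 125 * (s + 3) ^ 3 < 1728 * 5 ^ s := by
    have hs : 1 ≤ s := by omega
    clear ht hr
    induction s, hs using Nat.le_induction with
    | base => norm_num
    | succ s hs ih =>
      have : (s + 1 + 3) ^ 3 ≤ 5 * (s + 3) ^ 3 := by nlinarith [sq_nonneg s]
      calc 125 * (s + 1 + 3) ^ 3 ≤ 5 * (125 * (s + 3) ^ 3) := by omega
        _ < 5 * (1728 * 5 ^ s) := by omega
        _ = 1728 * 5 ^ (s + 1) := by rw [pow_succ]; ring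
  have h2 : 5 ^ s ≤ r ^ s := Nat.pow_le_pow_left hr s
  have h3 : 0 < r ^ 3 := by positivity
  calc 125 * (r ^ 3 * (s + 3) ^ 3) = r ^ 3 * (125 * (s + 3) ^ 3) := by ring
    _ < r ^ 3 * (1728 * 5 ^ s) := Nat.mul_lt_mul_of_pos_left h1 h3
    _ ≤ r ^ 3 * (1728 * r ^ s) := by gcongr
    _ = 1728 * r ^ (s + 3) := by rw [pow_add]; ring

end Pool.Agent.Helper71.SF
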