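import Pool.Agent.Helper71.SF.Size

/-!
# Factorizations of symmetric and alternating groups, part 8: all factors `a ≤ n³ / 64`, the induction
-/

set_option autoImplicit false

namespace Pool.Agent.Helper71.SF

open Pool.Agent.Helper10.FG Equiv Nat

theorem good_of_small {c a : ℕ} (hc : c = 1 ∨ c = 2) (ha : 0 < a) (h : a < 125) : Good c a := by
  refine ⟨fun hd => ?_, fun hd => ?_, fun p _ h5 hd => ?_⟩
  · have : 2 ^ 9 ≤ c * a := Nat.le_of_dvd (by rcases hc with rfl | rfl <;> omega) hd
    rcases hc with rfl | rfl <;> omega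
  · have := Nat.le_of_dvd ha hd
    omega
  · have h1 := Nat.le_of_dvd ha hd
    have h2 : 5 ^ 3 ≤ p ^ 3 := Nat.pow_le_pow_left h5 3
    omega

theorem P_small (e : Bool) : ∀ n a : ℕ, 64 * a ≤ n ^ 3 → P e n a := by
  intro n
  induction n using Nat.strong_induction_on with
  | _ n ih =>
  intro a hna b hb
  have hc := cc_or e
  have hdiv : cc e * a ∣ n ! := Dvd.intro b (by rw [mul_assoc]; exact hb)
  have ha : 0 < a := Nat.pos_of_ne_zero (by
    rintro rfl
    simp only [zero_mul, mul_zero] at hb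
    exact (Nat.factorial_pos n).ne hb)
  revert b
  change P e n a
  by_cases hg : Good (cc e) a
  · exact P_good hg
  obtain ⟨m, w, hm5, hma, hw, hwa, hN, hj, hn20, hrw⟩ := choose_m hna ha hc hg
  set j := n / m with hjd
  set N := (m - 1) * j with hNd
  have hmj : m * j ≤ n := Nat.mul_div_le n m
  have hNlt : N < m * j := by
    rw [hNd]
    exact Nat.mul_lt_mul_of_pos_right (by omega) hj
  have hNn : N < n := lt_of_lt_of_le hNlt hmj
  obtain ⟨a', rfl⟩ := hma
  by_cases hca : cc e * a' ∣ (N)!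
  · -- blocks
    obtain ⟨j0, hj0⟩ : ∃ j0, j = j0 + 1 := ⟨j - 1, by omega⟩
    have hsize : 64 * a' ≤ N ^ 3 := by
      by_contra hlt
      push Not at hlt
      have h1 : (3 * n) ^ 3 ≤ (5 * N) ^ 3 := Nat.pow_le_pow_left hN 3
      rw [mul_pow, mul_pow] at h1
      have h2 : 5 * a' ≤ m * a' := Nat.mul_le_mul_right _ hm5
      have h3 : 64 * (m * a') ≤ n ^ 3 := hna
      omega
    have hP := ih N hNn a' hsize
    have hP' : P e (m * j) (m * a') := by
      rw [hj0]
      apply P_F (by omega)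
      · rw [← hj0]; exact hP
      · rw [← hj0]; exact hca
    refine P_up hP' ?_ hmj
    have h1 : m * (N)! ∣ (m * j)! := by
      rw [← Nat.mul_factorial_pred (n := m * j) (by omega)]
      exact mul_dvd_mul (Dvd.intro _ rfl) (Nat.factorial_dvd_factorial (by omega))
    refine dvd_trans ?_ h1
    rw [mul_left_comm]
    exact mul_dvd_mul_left m hca
  -- the least `E` with `c a ∣ E!`
  have hex : ∃ E, cc e * (m * a') ∣ E ! := ⟨n, hdiv⟩
  classical
  set E := Nat.find hex with hE
  have hE1 : cc e * (m * a') ∣ E ! := Nat.find_spec hex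
  have hEn : E ≤ n := Nat.find_min' hex hdiv
  have hNE : N < E := by
    by_contra hlt
    apply hca
    refine dvd_trans (mul_dvd_mul_left _ (Dvd.intro_left m rfl)) (hE1.trans ?_)
    exact Nat.factorial_dvd_factorial (not_lt.1 hlt)
  have hEm : ¬ cc e * (m * a') ∣ (E - 1)! := Nat.find_min hex (by omega)
  rw [Nat.dvd_iff_prime_pow_dvd_dvd] at hEm
  push Not at hEm
  obtain ⟨r, k, hr, hrk, hrk'⟩ := hEm
  have hrE : r ∣ E := by
    by_contra hrE
    apply hrk'
    have h1 : r ^ k ∣ E * (E - 1)! := by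
      rw [Nat.mul_factorial_pred (by omega)]; exact hrk.trans hE1
    exact (Nat.Coprime.pow_left k ((Nat.Prime.coprime_iff_not_dvd hr).2 hrE)).dvd_of_dvd_mul_left h1
  obtain ⟨t, ht⟩ := hrE
  have ht0 : t ≠ 0 := by rintro rfl; omega
  have hkt : t ≤ k := by
    by_contra hlt
    apply hrk'
    refine (pow_dvd_pow r (show k ≤ t - 1 by omega)).trans (pow_dvd_factorial' hr.pos ?_)
    have : r * (t - 1) + r = r * t := by rw [← Nat.mul_succ]; congr 1; omega
    have := hr.two_le
    omega
  have hN12 : 12 ≤ N := by omega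
  have hca2 : cc e * (m * a') ≤ 2 * (m * a') := by
    rcases hc with h | h <;> rw [h] <;> omega
  have hcapos : 0 < cc e * (m * a') := Nat.mul_pos (cc_pos e) ha
  have hrk_le : r ^ k ≤ cc e * (m * a') := Nat.le_of_dvd hcapos hrk
  have hNE1 : (N)! ∣ (E - 1)! := Nat.factorial_dvd_factorial (by omega)
  have hr2 : r ≠ 2 := by
    rintro rfl
    exact hrk' ((two_case hn20 hN (by omega)).trans hNE1)
  have hr3' : 3 ≤ r := by have := hr.two_le; omega
  have hrka : r ^ k ∣ m * a' := (coprime_c hr hr3' hc k).dvd_of_dvd_mul_left hrk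
  have hr3 : r ≠ 3 := by
    rintro rfl
    have := Nat.le_of_dvd ha hrka
    exact hrk' ((three_case hn20 hN (by omega)).trans hNE1)
  have hr4 : r ≠ 4 := by rintro rfl; exact absurd hr (by norm_num)
  have hr5 : 5 ≤ r := by omega
  have hrt : r ^ t ∣ m * a' := (pow_dvd_pow r hkt).trans hrka
  have hrt_le : r ^ t ≤ m * a' := Nat.le_of_dvd ha hrt
  have h3n : 3 * n < 5 * (r * t) := by omega
  have h3n3 := cube_lt h3n
  rw [mul_pow, mul_pow, mul_pow] at h3n3
  have ht3 : t ≤ 3 := by
    by_contra hlt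
    have := no_large hr5 (show 4 ≤ t by omega)
    omega
  -- `r` does not divide `w` if `t ≥ 2`
  have hwr : 2 ≤ t → Nat.Coprime r w := by
    intro ht2
    rcases hrw r hr hr5 with h | h
    · exact h
    · exfalso
      have h1 : r * t ≤ r * 3 := Nat.mul_le_mul_left _ ht3
      omega
  have hwt : 2 ≤ t → 125 * r ^ t ≤ m * a' := by
    intro ht2
    have h1 : w * r ^ t ∣ m * a' :=
      ((hwr ht2).symm.pow_right t).mul_dvd_of_dvd_of_dvd hwa hrt
    exact (Nat.mul_le_mul_right _ hw).trans (Nat.le_of_dvd ha h1)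
  have ht12 : t = 1 ∨ t = 2 ∨ t = 3 := by omega
  rcases ht12 with rfl | rfl | rfl
  · -- one point
    rw [mul_one] at ht
    rw [pow_one] at hrt
    obtain ⟨a1, ha1⟩ := hrt
    have hr13 : 13 ≤ r := by omega
    obtain ⟨r0, rfl⟩ : ∃ r0, r = r0 + 1 := ⟨r - 1, by omega⟩
    have hsize : 64 * a1 ≤ r0 ^ 3 := by
      have h1 : 27 * (64 * ((r0 + 1) * a1)) < 125 * (r0 + 1) ^ 3 := by
        rw [← ha1]
        simp only [one_pow, mul_one] at h3n3
        omega
      have h2 : 27 * (64 * a1) < 125 * (r0 + 1) ^ 2 := by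
        have h3 : (r0 + 1) * (27 * (64 * a1)) < (r0 + 1) * (125 * (r0 + 1) ^ 2) := by
          calc (r0 + 1) * (27 * (64 * a1)) = 27 * (64 * ((r0 + 1) * a1)) := by ring
            _ < 125 * (r0 + 1) ^ 3 := h1
            _ = (r0 + 1) * (125 * (r0 + 1) ^ 2) := by ring
        exact Nat.lt_of_mul_lt_mul_left h3
      have h4 : 125 * (r0 + 1) ^ 2 ≤ 27 * r0 ^ 3 := by
        have h12 : 12 ≤ r0 := by omega
        nlinarith [Nat.mul_le_mul h12 h12, Nat.mul_le_mul (Nat.mul_le_mul h12 h12) h12,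
          Nat.mul_le_mul h12 (le_refl (r0 * r0))]
      omega
    have hP := P_a (ih r0 (by omega) a1 hsize)
    rw [← ha1] at hP
    rw [ht] at hE1 hEn
    exact P_up hP hE1 hEn
  · -- two points
    have h125 := hwt le_rfl
    have hr216 : 216 < r := by
      have h1 : 27 * (8000 * r ^ 2) < 1000 * r ^ 3 := by omega
      have h2 : r ^ 2 * 216000 < r ^ 2 * (1000 * r) := by
        calc r ^ 2 * 216000 = 27 * (8000 * r ^ 2) := by ring
          _ < 1000 * r ^ 3 := h1
          _ = r ^ 2 * (1000 * r) := by ring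
      have := Nat.lt_of_mul_lt_mul_left h2
      omega
    obtain ⟨a2, ha2⟩ := hrt
    have h27 : 27 * (64 * (r ^ 2 * a2)) < 1000 * r ^ 3 := by rw [← ha2]; omega
    have h27' : 27 * (64 * a2) < 1000 * r := by
      have h2 : r ^ 2 * (27 * (64 * a2)) < r ^ 2 * (1000 * r) := by
        calc r ^ 2 * (27 * (64 * a2)) = 27 * (64 * (r ^ 2 * a2)) := by ring
          _ < 1000 * r ^ 3 := h27
          _ = r ^ 2 * (1000 * r) := by ring
      exact Nat.lt_of_mul_lt_mul_left h2
    have hnr : ¬ r ∣ a2 := by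
      rintro ⟨a3, rfl⟩
      have ha3 : 0 < a3 := Nat.pos_of_ne_zero (by
        rintro rfl
        rw [mul_zero, mul_zero] at ha2
        omega)
      have : r * 1 ≤ r * a3 := Nat.mul_le_mul_left _ ha3
      omega
    have hca3 : cc e * a2 ∣ (2 * r - 2)! := by
      apply Nat.dvd_factorial
      · apply Nat.mul_pos (cc_pos e)
        exact Nat.pos_of_ne_zero (by rintro rfl; rw [mul_zero] at ha2; omega)
      · have : cc e * a2 ≤ 2 * a2 := by rcases hc with h | h <;> rw [h] <;> omega
        omega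
    have hcop : Nat.Coprime r (cc e * a2) := by
      apply Nat.Coprime.mul_right
      · have := coprime_c hr hr3' hc 1
        rwa [pow_one] at this
      · exact (Nat.Prime.coprime_iff_not_dvd hr).2 hnr
    have hx : cc e * (r * a2) ∣ (2 * r - 2)! := by
      rw [mul_left_comm]
      exact hcop.mul_dvd_of_dvd_of_dvd ((hr.dvd_factorial).2 (by omega)) hca3
    have hsize : 64 * (r * a2) ≤ (2 * r - 2) ^ 3 := by
      obtain ⟨s, rfl⟩ : ∃ s, r = s + 1 := ⟨r - 1, by omega⟩
      have e1 : 2 * (s + 1) - 2 = 2 * s := by omega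
      rw [e1, mul_pow]
      have h1 : (s + 1) * (27 * (64 * a2)) ≤ (s + 1) * (1000 * (s + 1)) := Nat.mul_le_mul_left _ h27'.le
      have h2 : 1000 * (s + 1) ^ 2 ≤ 27 * (8 * s ^ 3) := by
        have h12 : 216 ≤ s := by omega
        have h3 : 216 * s ^ 2 ≤ s ^ 3 := by rw [pow_succ s 2, mul_comm]; exact Nat.mul_le_mul_left _ h12
        have h4 : 216 * s ≤ s ^ 2 := by rw [pow_two]; exact Nat.mul_le_mul_right _ h12
        nlinarith
      nlinarith
    have hP := ih (2 * r - 2) (by omega) (r * a2) hsize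
    have hF := P_F (e := e) (m := r) (j := 1) (x := r * a2) hr.pos
      (by rw [show (r - 1) * (1 + 1) = 2 * r - 2 by omega]; exact hP)
      (by rw [show (r - 1) * (1 + 1) = 2 * r - 2 by omega]; exact hx)
    have e2 : r * (r * a2) = m * a' := by rw [ha2]; ring
    rw [e2] at hF
    rw [ht] at hE1 hEn
    exact P_up hF hE1 hEn
  · -- three points: impossible
    exfalso
    have h125 := hwt (by norm_num)
    have h1 : (20 * r) ^ 3 ≤ n ^ 3 := by
      rw [mul_pow]; omega
    have h2 : 20 * r ≤ n := by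
      by_contra hlt
      have := cube_lt (not_le.1 hlt)
      omega
    omega

end Pool.Agent.Helper71.SF
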