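import Pool.Agent.Helper71.SF.Block

/-!
# Factorizations of symmetric and alternating groups, part 6: the steps in terms of numbers
-/

set_option autoImplicit false

namespace Pool.Agent.Helper71.SF

open Pool.Agent.Helper10.FG Equiv Nat
open scoped Pointwise

/-- `(a, n!/(c a))` is realised in the group of degree `n` -/
def P (e : Bool) (n a : ℕ) : Prop := ∀ b : ℕ, cc e * (a * b) = n ! →
  ∀ (α : Type) [Fintype α] [DecidableEq α], Fintype.card α = n → Realised (Gr e α) a b

theorem two_le_of_dvd {e : Bool} {n : ℕ} (h : cc e ∣ n !) : e = true → 2 ≤ n := by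
  intro he
  subst he
  have h2 : 2 ∣ n ! := by simpa [cc] using h
  by_contra hn
  have : n ! = 1 := by
    have : n = 0 ∨ n = 1 := by omega
    rcases this with rfl | rfl <;> rfl
  rw [this] at h2
  exact absurd h2 (by norm_num)

theorem P_good {e : Bool} {n a : ℕ} (h : Good (cc e) a) : P e n a := by
  intro b hb α _ _ hα
  refine main e n α hα a b ?_ h
  have := card_Gr e α (by rw [hα]; exact two_le_of_dvd (Dvd.intro _ hb))
  rw [hα, ← hb] at this
  exact (Nat.eq_of_mul_eq_mul_left (cc_pos e) this).symm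

theorem card_ne {α : Type} [Fintype α] [DecidableEq α] {n : ℕ} (hα : Fintype.card α = n + 1) (a0 : α) :
    Fintype.card {z // z ≠ a0} = n := by
  rw [Fintype.card_subtype_compl, Fintype.card_subtype_eq, hα]; rfl

/-- the step on `b` -/
theorem P_b {e : Bool} {n a : ℕ} (hP : P e n a) (hd : cc e * a ∣ n !) : P e (n + 1) a := by
  intro b hb α _ _ hα
  obtain ⟨k, hk⟩ := hd
  have hk' : cc e * (a * k) = n ! := by rw [hk]; ring
  have hca : 0 < cc e * a := Nat.pos_of_ne_zero (by
    rintro h0
    rw [h0, zero_mul] at hk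
    exact (Nat.factorial_pos n).ne' hk)
  have hbk : b = (n + 1) * k := by
    apply Nat.eq_of_mul_eq_mul_left hca
    rw [mul_assoc, hb, Nat.factorial_succ, hk]; ring
  have h2 : e = true → 2 ≤ n := two_le_of_dvd (Dvd.intro _ hk')
  obtain ⟨a0⟩ : Nonempty α := Fintype.card_pos_iff.1 (by omega)
  have hr := hP k hk' {z // z ≠ a0} (card_ne hα a0)
  have hG := card_Gr e α (by rw [hα]; intro he; have := h2 he; omega)
  rw [hα, Nat.factorial_succ, ← hk', mul_left_comm] at hG
  have hG' := Nat.eq_of_mul_eq_mul_left (cc_pos e) hG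
  have := step1 e (by rw [hα]; intro he; have := h2 he; omega) a0 hr.symm (by rw [hα, hG']; ring)
  rw [hα] at this
  rw [hbk]
  exact this.symm

/-- the step on `a` -/
theorem P_a {e : Bool} {n a : ℕ} (hP : P e n a) : P e (n + 1) ((n + 1) * a) := by
  intro b hb α _ _ hα
  have hk' : cc e * (a * b) = n ! := by
    apply Nat.eq_of_mul_eq_mul_left (show 0 < n + 1 by omega)
    rw [← Nat.factorial_succ, ← hb]; ring
  have h2 : e = true → 2 ≤ n := two_le_of_dvd (Dvd.intro _ hk')
  obtain ⟨a0⟩ : Nonempty α := Fintype.card_pos_iff.1 (by omega)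
  have hr := hP b hk' {z // z ≠ a0} (card_ne hα a0)
  have hG := card_Gr e α (by rw [hα]; intro he; have := h2 he; omega)
  rw [hα, Nat.factorial_succ, ← hk', mul_left_comm] at hG
  have hG' := Nat.eq_of_mul_eq_mul_left (cc_pos e) hG
  have := step1 e (by rw [hα]; intro he; have := h2 he; omega) a0 hr (by rw [hα, hG']; ring)
  rwa [hα] at this

/-- many steps on `b` -/
theorem P_up {e : Bool} {n k a : ℕ} (hP : P e k a) (hd : cc e * a ∣ k !) (hkn : k ≤ n) : P e n a := by
  induction n, hkn using Nat.le_induction with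
  | base => exact hP
  | succ n hn ih => exact P_b ih (hd.trans (Nat.factorial_dvd_factorial hn))

/-- the step with blocks -/
theorem P_F {e : Bool} {m j x : ℕ} (hm : 0 < m) (hP : P e ((m - 1) * (j + 1)) x)
    (hd : cc e * x ∣ ((m - 1) * (j + 1))!) : P e (m * (j + 1)) (m * x) := by
  intro b hb α _ _ hα
  obtain ⟨k, hk⟩ := hd
  have hk' : cc e * (x * k) = ((m - 1) * (j + 1))! := by rw [hk]; ring
  set n := m * (j + 1) with hn
  have hnj : (m - 1) * (j + 1) = n - 1 - j := by
    rw [hn, Nat.sub_mul]; omega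
  have hn1 : j + 1 ≤ n := by
    rw [hn]; exact Nat.le_mul_of_pos_left _ hm
  have h2 : e = true → 2 ≤ (m - 1) * (j + 1) := two_le_of_dvd (Dvd.intro _ hk')
  have hfac : n ! = m * (j + 1) * ((n - 1).descFactorial j * (cc e * (x * k))) := by
    rw [hk', hnj, mul_comm ((n - 1).descFactorial j), Nat.factorial_mul_descFactorial (by omega), ← hn,
      Nat.mul_factorial_pred (by omega)]
  have hcx : 0 < cc e * x := Nat.pos_of_ne_zero (by
    rintro h0
    rw [h0, zero_mul] at hk
    exact (Nat.factorial_pos _).ne' hk)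
  have hbk : b = (j + 1) * (n - 1).descFactorial j * k := by
    have h3 : (cc e * x) * m * b = (cc e * x) * m * ((j + 1) * (n - 1).descFactorial j * k) := by
      calc (cc e * x) * m * b = cc e * (m * x * b) := by ring
        _ = n ! := hb
        _ = _ := by rw [hfac]; ring
    exact Nat.eq_of_mul_eq_mul_left (Nat.mul_pos hcx hm) h3
  obtain ⟨f0⟩ : Nonempty (Fin (j + 1) ↪ α) :=
    Function.Embedding.nonempty_of_card_le (by rw [Fintype.card_fin, hα]; exact hn1)
  have hβ : Fintype.card {z // ∀ s, z ≠ f0 s} = (m - 1) * (j + 1) := by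
    rw [Fintype.card_subtype]
    have : (Finset.univ.filter fun z : α => ∀ s, z ≠ f0 s) = Finset.univ \ Finset.univ.map f0 := by
      ext z
      simp only [Finset.mem_filter, Finset.mem_univ, true_and, Finset.mem_sdiff, Finset.mem_map, not_exists]
      exact ⟨fun h s hs => h s hs.symm, fun h s hs => h s hs.symm⟩
    rw [this, Finset.card_sdiff_of_subset (Finset.subset_univ _), Finset.card_map, Finset.card_univ,
      Finset.card_univ, Fintype.card_fin, hα, hnj]
    omega
  have hr := hP k hk' {z // ∀ s, z ≠ f0 s} hβ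
  have hG := card_Gr e α (by rw [hα]; intro he; have := h2 he; omega)
  have hG' : Nat.card (Gr e α) = m * x * b := by
    apply Nat.eq_of_mul_eq_mul_left (cc_pos e)
    rw [hG, hα, hb]
  rw [hbk]
  have := stepF e (m := m) (j := j) (by rw [hα]; intro he; have := h2 he; omega) f0 (by rw [hα]) hr
    (by rw [hG', hbk, hα])
  rwa [hα] at this

end Pool.Agent.Helper71.SF
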